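import Pool.Agent.MP_476a06_an.Index

/-! Cauchy's formula and the argument principle for the level curves of a collar. -/

set_option autoImplicit false

open Complex Metric Set Filter Topology MeasureTheory
open scoped Real Interval

namespace Pool.Agent.MP_476a06_an

lemma eventually_cocompact_iff {P : ℂ → Prop} :
    (∀ᶠ a in cocompact ℂ, P a) ↔ ∃ R : ℝ, ∀ a, R ≤ ‖a‖ → P a := by
  rw [← Metric.cobounded_eq_cocompact, Filter.hasBasis_cobounded_norm.eventually_iff]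
  simp

lemma exists_annulus_of_nhds {P : ℂ → Prop} {ρ : ℝ} (hρ : 0 < ρ)
    (h : ∀ v : ℂ, ‖v‖ = ρ → ∀ᶠ u in 𝓝 v, P u) :
    ∃ ε > 0, ∀ u : ℂ, ρ - ε < ‖u‖ → ‖u‖ < ρ + ε → P u := by
  obtain ⟨ε, hε, hth⟩ := (isCompact_sphere (0 : ℂ) ρ).exists_thickening_subset_open
    (t := interior {u | P u}) isOpen_interior
    fun v hv => mem_interior_iff_mem_nhds.2 (h v (by simpa using hv))
  refine ⟨min ε ρ, lt_min hε hρ, fun u h1 h2 => ?_⟩
  have e1 := min_le_left ε ρ
  have e2 := min_le_right ε ρ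
  have hu : u ≠ 0 := norm_pos_iff.1 (by linarith)
  have h0 : (‖u‖ : ℂ) ≠ 0 := by exact_mod_cast norm_ne_zero_iff.2 hu
  refine interior_subset (s := {u | P u})
    (hth (mem_thickening_iff.2 ⟨ρ * (u / (‖u‖ : ℂ)), ?_, ?_⟩))
  · rw [mem_sphere_zero_iff_norm, norm_mul, norm_normalize hu, mul_one, norm_real,
      Real.norm_eq_abs, abs_of_pos hρ]
  · have : u - ρ * (u / (‖u‖ : ℂ)) = ((‖u‖ - ρ : ℝ) : ℂ) * (u / (‖u‖ : ℂ)) := by
      push_cast
      field_simp
    rw [dist_eq_norm, this, norm_mul, norm_normalize hu, mul_one, norm_real, Real.norm_eq_abs,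
      abs_lt]
    constructor <;> linarith

lemma deriv_decay {u : ℂ → ℂ} {L : ℂ} (hd : ∀ᶠ t in cocompact ℂ, DifferentiableAt ℂ u t)
    (hL : Tendsto u (cocompact ℂ) (𝓝 L)) :
    Tendsto (fun t => t * deriv u t) (cocompact ℂ) (𝓝 0) := by
  rw [NormedAddGroup.tendsto_nhds_zero]
  intro ε hε
  have h1 : ∀ᶠ t in cocompact ℂ, ‖u t - L‖ ≤ ε / 4 := by
    have := hL.eventually (closedBall_mem_nhds L (by linarith : 0 < ε / 4))
    simpa [dist_eq_norm] using this
  obtain ⟨R, hR⟩ := eventually_cocompact_iff.1 (hd.and h1)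
  refine eventually_cocompact_iff.2 ⟨2 * |R| + 1, fun t ht => ?_⟩
  have hR0 := abs_nonneg R
  have hR1 := le_abs_self R
  have hpos : 0 < ‖t‖ := by linarith
  have hball : ∀ z ∈ closedBall t (‖t‖ / 2), R ≤ ‖z‖ := fun z hz => by
    have e1 : ‖z - t‖ ≤ ‖t‖ / 2 := by simpa [dist_eq_norm] using hz
    have e2 := norm_sub_norm_le t z
    rw [norm_sub_rev] at e2
    linarith
  have hdc : DiffContOnCl ℂ (fun z => u z - L) (ball t (‖t‖ / 2)) := by
    refine DifferentiableOn.diffContOnCl fun z hz => ?_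
    exact ((hR z (hball z (closure_ball_subset_closedBall hz))).1.sub_const L).differentiableWithinAt
  have h2 := norm_deriv_le_of_forall_mem_sphere_norm_le (half_pos hpos) hdc
    fun z hz => (hR z (hball z (sphere_subset_closedBall hz))).2
  rw [deriv_sub_const] at h2
  rw [norm_mul]
  calc ‖t‖ * ‖deriv u t‖ ≤ ‖t‖ * (ε / 4 / (‖t‖ / 2)) := by gcongr
    _ = ε / 2 := by field_simp; ring
    _ < ε := by linarith

lemma tendsto_inv_sub (b : ℂ) : Tendsto (fun t : ℂ => (t - b)⁻¹) (cocompact ℂ) (𝓝 0) := by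
  refine squeeze_zero_norm' (a := fun t : ℂ => (‖t‖ - ‖b‖)⁻¹) ?_ ?_
  · filter_upwards [(tendsto_norm_cocompact_atTop (E := ℂ)).eventually_gt_atTop ‖b‖] with t ht
    rw [norm_inv]
    exact inv_anti₀ (by linarith) (norm_sub_norm_le t b)
  · exact tendsto_inv_atTop_zero.comp
      (tendsto_atTop_add_const_right _ (-‖b‖) (tendsto_norm_cocompact_atTop (E := ℂ)))

lemma eventually_ne_cocompact (b : ℂ) : ∀ᶠ t in cocompact ℂ, t ≠ b := by
  filter_upwards [(tendsto_norm_cocompact_atTop (E := ℂ)).eventually_gt_atTop ‖b‖] with t ht he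
  rw [he] at ht
  exact lt_irrefl _ ht

lemma tendsto_ratio (b c : ℂ) :
    Tendsto (fun t : ℂ => (t - c) / (t - b)) (cocompact ℂ) (𝓝 1) := by
  have h := ((tendsto_inv_sub b).const_mul (b - c)).const_add 1
  rw [mul_zero, add_zero] at h
  refine h.congr' ?_
  filter_upwards [eventually_ne_cocompact b] with t ht
  have := sub_ne_zero.2 ht
  field_simp
  ring

namespace Collar

variable {Ω : Set ℂ} {n : ℕ} (C : Collar Ω n)

/-- The integral of `f` along all level curves at level `ρ`. -/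
noncomputable def J (ρ : ℝ) (f : ℂ → ℂ) : ℂ :=
  ∑ k, ∮ u in C(0, ρ), f (C.Ψ k u) * deriv (C.Ψ k) u

/-- The Cauchy integral of `f` along all level curves. -/
noncomputable def CF (ρ : ℝ) (f : ℂ → ℂ) (a : ℂ) : ℂ :=
  ∑ k, CI (C.Ψ k) (fun u => f (C.Ψ k u) * deriv (C.Ψ k) u) ρ a

/-- The point `a` is not on a level curve of level `ρ`. -/
def Off (ρ : ℝ) (a : ℂ) : Prop := ∀ k u, ‖u‖ = ρ → C.Ψ k u ≠ a

variable {C}

lemma J_congr {ρ : ℝ} (hρ : 0 ≤ ρ) {f g : ℂ → ℂ}
    (h : ∀ k u, ‖u‖ = ρ → f (C.Ψ k u) = g (C.Ψ k u)) : C.J ρ f = C.J ρ g :=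
  Finset.sum_congr rfl fun k _ => circleIntegral.integral_congr hρ fun u hu => by
    simp only [h k u (by simpa using hu)]

lemma J_div_eq_CF (ρ : ℝ) (f : ℂ → ℂ) (a : ℂ) : C.J ρ (fun t => f t / (t - a)) = C.CF ρ f a := by
  simp only [J, CF, CI, div_mul_eq_mul_div]

lemma J_shift {r R : ℝ} (h1 : 1 - C.δ < r) (hle : r ≤ R) (h2 : R < 1 + C.δ) {f : ℂ → ℂ}
    {S : Set ℂ} (hc : ContinuousOn f S) (hS : ∀ k u, r ≤ ‖u‖ → ‖u‖ ≤ R → C.Ψ k u ∈ S)
    (hd : ∀ k u, r < ‖u‖ → ‖u‖ < R → DifferentiableAt ℂ f (C.Ψ k u)) : C.J R f = C.J r f := by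
  refine Finset.sum_congr rfl fun k _ => ?_
  refine circleIntegral_eq_of_differentiable_on_annulus_off_countable (pos_of h1) hle
    countable_empty ?_ ?_
  · have hm : ∀ u ∈ closedBall (0 : ℂ) R \ ball 0 r, r ≤ ‖u‖ ∧ ‖u‖ ≤ R := fun u hu => by
      simp only [Set.mem_sdiff, mem_closedBall, dist_zero_right, mem_ball, not_lt] at hu
      exact ⟨hu.2, hu.1⟩
    have ha : ∀ u ∈ closedBall (0 : ℂ) R \ ball 0 r, AnalyticAt ℂ (C.Ψ k) u := fun u hu =>
      C.an k u (h1.trans_le (hm u hu).1) ((hm u hu).2.trans_lt h2)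
    refine ContinuousOn.mul (hc.comp (fun u hu => (ha u hu).continuousAt.continuousWithinAt)
      fun u hu => hS k u (hm u hu).1 (hm u hu).2)
      fun u hu => (ha u hu).deriv.continuousAt.continuousWithinAt
  · intro u hu
    simp only [Set.mem_sdiff, mem_closedBall, dist_zero_right, mem_ball, not_le] at hu
    have ha := C.an k u (h1.trans hu.1.2) (hu.1.1.trans h2)
    exact ((hd k u hu.1.2 hu.1.1).comp u ha.differentiableAt).mul ha.deriv.differentiableAt

lemma isCompact_curves {ρ : ℝ} (h1 : 1 - C.δ < ρ) (h2 : ρ < 1 + C.δ) :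
    IsCompact (⋃ k, C.Ψ k '' sphere 0 ρ) :=
  isCompact_iUnion fun k => (isCompact_sphere 0 ρ).image_of_continuousOn
    fun u hu => (an_sphere k h1 h2 u hu).continuousAt.continuousWithinAt

lemma off_iff {ρ : ℝ} {a : ℂ} : C.Off ρ a ↔ a ∉ ⋃ k, C.Ψ k '' sphere 0 ρ := by
  simp [Off]

lemma Off.eventually {ρ : ℝ} (h1 : 1 - C.δ < ρ) (h2 : ρ < 1 + C.δ) {a : ℂ} (ha : C.Off ρ a) :
    ∀ᶠ b in 𝓝 a, C.Off ρ b := by
  filter_upwards [(isCompact_curves h1 h2).isClosed.isOpen_compl.mem_nhds (off_iff.1 ha)] with b hb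
  exact off_iff.2 hb

lemma eventually_off_cocompact {ρ : ℝ} (h1 : 1 - C.δ < ρ) (h2 : ρ < 1 + C.δ) :
    ∀ᶠ b in cocompact ℂ, C.Off ρ b := by
  filter_upwards [(isCompact_curves h1 h2).compl_mem_cocompact] with b hb
  exact off_iff.2 hb

lemma eventually_tot_zero {ρ : ℝ} (h1 : 1 - C.δ < ρ) (h2 : ρ < 1) :
    ∀ᶠ b in cocompact ℂ, C.tot ρ b = 0 := by
  have h2' : ρ < 1 + C.δ := by linarith [C.δ_pos]
  filter_upwards [eventually_off_cocompact h1 h2', (tot_tendsto h1 h2').eventually_ne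
    (show (0 : ℂ) ≠ -1 by norm_num)] with b hb1 hb2
  exact (tot_cases h1 h2 hb1).resolve_left hb2

lemma eventually_tot_neg {ρ : ℝ} (h1 : 1 - C.δ < ρ) (h2 : ρ < 1) {a : ℂ} (ha : C.Off ρ a)
    (ht : C.tot ρ a = -1) : ∀ᶠ b in 𝓝 a, C.Off ρ b ∧ C.tot ρ b = -1 := by
  have h2' : ρ < 1 + C.δ := by linarith [C.δ_pos]
  filter_upwards [ha.eventually h1 h2', (tot_differentiableAt h1 h2' ha).continuousAt.eventually_ne
    (y := 0) (by rw [ht]; norm_num)] with b hb1 hb2
  exact ⟨hb1, (tot_cases h1 h2 hb1).resolve_right hb2⟩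

lemma contAt_integrand {ρ : ℝ} (h1 : 1 - C.δ < ρ) (h2 : ρ < 1 + C.δ) {f : ℂ → ℂ}
    (hf : ∀ k u, ‖u‖ = ρ → ContinuousAt f (C.Ψ k u)) (k : Fin n) :
    ∀ u ∈ sphere (0 : ℂ) ρ, ContinuousAt (fun u => f (C.Ψ k u) * deriv (C.Ψ k) u) u := fun u hu =>
  ((hf k u (by simpa using hu)).comp (an_sphere k h1 h2 u hu).continuousAt).mul
    (an_sphere k h1 h2 u hu).deriv.continuousAt

lemma CF_differentiableAt {ρ : ℝ} (h1 : 1 - C.δ < ρ) (h2 : ρ < 1 + C.δ) {f : ℂ → ℂ}
    (hf : ∀ k u, ‖u‖ = ρ → ContinuousAt f (C.Ψ k u)) {a : ℂ} (ha : C.Off ρ a) :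
    DifferentiableAt ℂ (C.CF ρ f) a := by
  unfold CF
  exact DifferentiableAt.fun_sum fun k _ => differentiableAt_CI (pos_of h1).le
    (fun u hu => (an_sphere k h1 h2 u hu).continuousAt) (contAt_integrand h1 h2 hf k)
    fun u hu => ha k u (by simpa using hu)

lemma CF_bound {ρ : ℝ} (h1 : 1 - C.δ < ρ) (h2 : ρ < 1 + C.δ) {f : ℂ → ℂ}
    (hf : ∀ k u, ‖u‖ = ρ → ContinuousAt f (C.Ψ k u)) :
    ∃ M : ℝ, ∀ᶠ a in cocompact ℂ, ‖C.CF ρ f a‖ ≤ M / ‖a‖ := by
  choose M hM using fun k => CI_bound (pos_of h1).le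
    (fun u hu => (an_sphere k h1 h2 u hu).continuousAt) (contAt_integrand h1 h2 hf k)
  refine ⟨∑ k, M k, ?_⟩
  filter_upwards [eventually_all.2 hM] with a ha
  rw [Finset.sum_div]
  exact (norm_sum_le _ _).trans (Finset.sum_le_sum fun k _ => ha k)

lemma J_dslope {ρ : ℝ} (h1 : 1 - C.δ < ρ) (h2 : ρ < 1 + C.δ) {f : ℂ → ℂ}
    (hf : ∀ k u, ‖u‖ = ρ → ContinuousAt f (C.Ψ k u)) {a : ℂ} (ha : C.Off ρ a) :
    C.J ρ (dslope f a) = C.CF ρ f a - f a * (2 * π * I * C.tot ρ a) := by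
  have hρ := (pos_of h1).le
  simp only [J, CF, tot, Finset.mul_sum, ← Finset.sum_sub_distrib]
  refine Finset.sum_congr rfl fun k _ => ?_
  have hne : ∀ u ∈ sphere (0 : ℂ) ρ, C.Ψ k u - a ≠ 0 := fun u hu =>
    sub_ne_zero.2 (ha k u (by simpa using hu))
  have i1 : CircleIntegrable (fun u => f (C.Ψ k u) * deriv (C.Ψ k) u / (C.Ψ k u - a)) 0 ρ :=
    ContinuousOn.circleIntegrable hρ fun u hu => ((contAt_integrand h1 h2 hf k u hu).div
      ((an_sphere k h1 h2 u hu).continuousAt.sub continuousAt_const) (hne u hu)).continuousWithinAt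
  have i2 : CircleIntegrable (fun u => f a * (deriv (C.Ψ k) u / (C.Ψ k u - a))) 0 ρ :=
    ContinuousOn.circleIntegrable hρ fun u hu => (continuousAt_const.mul
      ((an_sphere k h1 h2 u hu).deriv.continuousAt.div
      ((an_sphere k h1 h2 u hu).continuousAt.sub continuousAt_const) (hne u hu))).continuousWithinAt
  rw [ind_eq_CI]
  simp only [CI]
  rw [← mul_assoc (2 * π * I), mul_inv_cancel₀ two_pi_I_ne, one_mul,
    ← circleIntegral.integral_const_mul, ← circleIntegral.integral_sub i1 i2]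
  refine circleIntegral.integral_congr hρ fun u hu => ?_
  have := hne u hu
  rw [dslope_of_ne _ (sub_ne_zero.1 this), slope_def_field]
  field_simp

/-- Cauchy's integral formula (Dixon's argument). -/
theorem cauchy {U : Set ℂ} (hU : IsOpen U) {ρ : ℝ} (h1 : 1 - C.δ < ρ) (h2 : ρ < 1)
    (hUc : ∀ a ∉ U, C.Off ρ a ∧ C.tot ρ a = -1) {f : ℂ → ℂ} (hf : DifferentiableOn ℂ f U)
    (hf0 : Tendsto f (cocompact ℂ) (𝓝 0)) {a : ℂ} (ha : a ∈ U) (hoff : C.Off ρ a) :
    C.CF ρ f a = 2 * π * I * (C.tot ρ a + 1) * f a := by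
  classical
  have hδ := C.δ_pos
  have h2' : ρ < 1 + C.δ := by linarith
  have hρ := pos_of h1
  have hin : ∀ k u, ‖u‖ = ρ → C.Ψ k u ∈ U := fun k u hu => by
    by_contra h
    exact (hUc _ h).1 k u hu rfl
  obtain ⟨ε, hε, hε'⟩ := exists_annulus_of_nhds (P := fun u => ∀ k, C.Ψ k u ∈ U) hρ fun v hv =>
    eventually_all.2 fun k => (C.an k v (hv ▸ h1) (hv ▸ h2')).continuousAt.eventually
      (hU.mem_nhds (hin k v hv))
  set r := min (ρ + ε / 2) 1 with hr
  have hr1 : ρ < r := lt_min (by linarith) h2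
  have hr2 : r ≤ 1 := min_le_right _ _
  have hr3 : r ≤ ρ + ε / 2 := min_le_left _ _
  have hin' : ∀ k u, ρ ≤ ‖u‖ → ‖u‖ ≤ r → C.Ψ k u ∈ U := fun k u e1 e2 =>
    hε' u (by linarith) (by linarith) k
  have hfa : ∀ x ∈ U, DifferentiableAt ℂ f x := fun x hx => hf.differentiableAt (hU.mem_nhds hx)
  have hcρ : ∀ k u, ‖u‖ = ρ → ContinuousAt f (C.Ψ k u) := fun k u hu =>
    (hfa _ (hin k u hu)).continuousAt
  have hcr : ∀ k u, ‖u‖ = r → ContinuousAt f (C.Ψ k u) := fun k u hu =>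
    (hfa _ (hin' k u (by linarith) hu.le)).continuousAt
  have hshift : ∀ x ∈ U, C.J r (dslope f x) = C.J ρ (dslope f x) := fun x hx => by
    have hd := (differentiableOn_dslope (hU.mem_nhds hx)).2 hf
    exact J_shift h1 hr1.le (by linarith) hd.continuousOn hin'
      fun k u e1 e2 => hd.differentiableAt (hU.mem_nhds (hin' k u e1.le e2.le))
  set H : ℂ → ℂ := fun x => if x ∈ U then C.J ρ (dslope f x) - 2 * π * I * f x else C.CF ρ f x
    with hH
  have hHd : Differentiable ℂ H := by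
    intro x
    by_cases hx : x ∈ U
    · have key : ∀ s : ℝ, 1 - C.δ < s → s < 1 + C.δ →
          (∀ k u, ‖u‖ = s → ContinuousAt f (C.Ψ k u)) → C.Off s x →
          (∀ y ∈ U, C.J s (dslope f y) = C.J ρ (dslope f y)) → DifferentiableAt ℂ H x := by
        intro s s1 s2 s3 s4 s5
        have hd : DifferentiableAt ℂ
            (fun y => C.CF s f y - f y * (2 * π * I * C.tot s y) - 2 * π * I * f y) x :=
          ((CF_differentiableAt s1 s2 s3 s4).sub ((hfa x hx).mul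
            ((tot_differentiableAt s1 s2 s4).const_mul _))).sub ((hfa x hx).const_mul _)
        refine hd.congr_of_eventuallyEq ?_
        filter_upwards [hU.mem_nhds hx, s4.eventually s1 s2] with y hy1 hy2
        simp only [hH, if_pos hy1]
        rw [← s5 y hy1, J_dslope s1 s2 s3 hy2]
      by_cases ho : C.Off ρ x
      · exact key ρ h1 h2' hcρ ho fun _ _ => rfl
      · refine key r (by linarith) (by linarith) hcr ?_ hshift
        simp only [Off, not_forall, not_not] at ho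
        obtain ⟨k, v, hv, rfl⟩ := ho
        intro j u hu he
        have := (C.inj j k u v (by linarith) (by linarith) (by linarith) (by linarith) he).2
        subst this
        linarith
    · refine (CF_differentiableAt h1 h2' hcρ (hUc x hx).1).congr_of_eventuallyEq ?_
      filter_upwards [eventually_tot_neg h1 h2 (hUc x hx).1 (hUc x hx).2] with y hy
      simp only [hH]
      split_ifs with hyU
      · rw [J_dslope h1 h2' hcρ hy.1, hy.2]
        ring
      · rfl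
  have hH0 : Tendsto H (cocompact ℂ) (𝓝 0) := by
    obtain ⟨M, hM⟩ := CF_bound h1 h2' hcρ
    have h3 := (tendsto_of_bound hM).sub (hf0.const_mul (2 * π * I))
    rw [mul_zero, sub_zero] at h3
    refine h3.congr' ?_
    filter_upwards [eventually_off_cocompact h1 h2', eventually_tot_zero h1 h2] with y hy1 hy2
    have hyU : y ∈ U := by
      by_contra h
      have := (hUc y h).2
      rw [hy2] at this
      norm_num at this
    simp only [hH, if_pos hyU]
    rw [J_dslope h1 h2' hcρ hy1, hy2]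
    ring
  have h4 := hHd.apply_eq_of_tendsto_cocompact a hH0
  simp only [hH, if_pos ha] at h4
  rw [J_dslope h1 h2' hcρ hoff] at h4
  linear_combination h4

theorem cauchy_Ω {ρ : ℝ} (h1 : 1 - C.δ < ρ) (h2 : ρ < 1) {f : ℂ → ℂ} (hf : DifferentiableOn ℂ f Ω)
    (hf0 : Tendsto f (cocompact ℂ) (𝓝 0)) {a : ℂ} (ha : a ∈ Ω) (hoff : C.Off ρ a)
    (ht : C.tot ρ a = 0) : C.J ρ (fun t => f t / (t - a)) = 2 * π * I * f a := by
  rw [J_div_eq_CF, cauchy C.isOpen h1 h2
    (fun x hx => ⟨off_of_not_mem h1 h2 hx, tot_compl h1 h2 hx⟩) hf hf0 ha hoff, ht]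
  ring

include C in
/-- A holomorphic function vanishing at infinity is `O(1/|a|)` there. -/
lemma decay {f : ℂ → ℂ} (hf : DifferentiableOn ℂ f Ω) (hf0 : Tendsto f (cocompact ℂ) (𝓝 0)) :
    ∃ M : ℝ, ∀ᶠ a in cocompact ℂ, ‖f a‖ ≤ M / ‖a‖ := by
  have hδ := C.δ_pos
  have h1 : 1 - C.δ < 1 - C.δ / 2 := by linarith
  have h2 : 1 - C.δ / 2 < 1 := by linarith
  obtain ⟨M, hM⟩ := CF_bound h1 (by linarith) (f := f) fun k u hu =>
    (hf.differentiableAt (C.isOpen.mem_nhds (C.inside k u (hu ▸ h1) (hu ▸ h2)))).continuousAt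
  refine ⟨M / (2 * π), ?_⟩
  filter_upwards [hM, C.eventually_mem, eventually_off_cocompact h1 (by linarith),
    eventually_tot_zero h1 h2] with a e1 e2 e3 e4
  rw [← J_div_eq_CF, cauchy_Ω h1 h2 hf hf0 e2 e3 e4] at e1
  have : ‖(2 * π * I : ℂ)‖ = 2 * π := by simp [abs_of_pos Real.pi_pos]
  rw [norm_mul, this] at e1
  rw [div_right_comm, le_div_iff₀ (by positivity)]
  linarith

theorem J_zero {U : Set ℂ} (hU : IsOpen U) {ρ : ℝ} (h1 : 1 - C.δ < ρ) (h2 : ρ < 1)
    (hUc : ∀ a ∉ U, C.Off ρ a ∧ C.tot ρ a = -1) {p : ℂ → ℂ} (hp : DifferentiableOn ℂ p U)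
    (hp0 : Tendsto (fun t => t * p t) (cocompact ℂ) (𝓝 0)) : C.J ρ p = 0 := by
  have h2' : ρ < 1 + C.δ := by linarith [C.δ_pos]
  obtain ⟨a, ha1, ha2⟩ := ((eventually_off_cocompact h1 h2').and (eventually_tot_zero h1 h2)).exists
  have haU : a ∈ U := by
    by_contra h
    have := (hUc a h).2
    rw [ha2] at this
    norm_num at this
  have h3 : Tendsto (fun t => (t - a) * p t) (cocompact ℂ) (𝓝 0) := by
    have := (tendsto_ratio 0 a).mul hp0
    rw [mul_zero] at this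
    refine this.congr' ?_
    filter_upwards [eventually_ne_cocompact 0] with t ht
    field_simp
    ring
  have h4 := cauchy hU h1 h2 hUc (f := fun t => (t - a) * p t)
    ((differentiableOn_id.sub_const a).mul hp) h3 haU ha1
  rw [← J_div_eq_CF] at h4
  simp only [sub_self, zero_mul, mul_zero] at h4
  rw [← h4]
  refine J_congr (pos_of h1).le fun k u hu => ?_
  have := sub_ne_zero.2 (ha1 k u hu)
  field_simp

lemma good_comp {ρ : ℝ} (h1 : 1 - C.δ < ρ) (h2 : ρ < 1) {f : ℂ → ℂ} (hf : DifferentiableOn ℂ f Ω)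
    (k : Fin n) (h0 : ∀ u, ‖u‖ = ρ → f (C.Ψ k u) ≠ 0) : Good (fun u => f (C.Ψ k u)) ρ := by
  intro u hu
  have hu' : ‖u‖ = ρ := by simpa using hu
  exact ⟨(hf.analyticAt (C.isOpen.mem_nhds (C.inside k u (hu' ▸ h1) (hu' ▸ h2)))).comp
    (an_sphere k h1 (by linarith [C.δ_pos]) u hu), h0 u hu'⟩

lemma sum_wn_eq_zero {ρ : ℝ} (h1 : 1 - C.δ < ρ) (h2 : ρ < 1) {g : ℂ → ℂ}
    (hg : DifferentiableOn ℂ g Ω) {L : ℂ} (hL : L ≠ 0) (hlim : Tendsto g (cocompact ℂ) (𝓝 L))
    (h0 : ∀ a ∈ Ω, g a = 0 → C.Off ρ a ∧ C.tot ρ a = -1) :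
    ∑ k, wn (fun u => g (C.Ψ k u)) ρ = 0 := by
  have h2' : ρ < 1 + C.δ := by linarith [C.δ_pos]
  have hU : IsOpen (Ω ∩ g ⁻¹' {0}ᶜ) :=
    hg.continuousOn.isOpen_inter_preimage C.isOpen isOpen_compl_singleton
  have hJ := J_zero hU h1 h2 (p := fun t => deriv g t / g t) (fun a ha => by
    by_cases haΩ : a ∈ Ω
    · exact h0 a haΩ (by simpa [haΩ] using ha)
    · exact ⟨off_of_not_mem h1 h2 haΩ, tot_compl h1 h2 haΩ⟩)
    (((hg.deriv C.isOpen).mono inter_subset_left).div (hg.mono inter_subset_left)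
      fun x hx => hx.2) (by
      have := (deriv_decay (C.eventually_mem.mono fun t ht =>
        hg.differentiableAt (C.isOpen.mem_nhds ht)) hlim).div hlim hL
      rw [zero_div] at this
      exact this.congr fun t => by simp [mul_div_assoc])
  simp only [wn, ← Finset.mul_sum]
  rw [mul_eq_zero]
  right
  refine Eq.trans ?_ hJ
  refine Finset.sum_congr rfl fun k _ => circleIntegral.integral_congr (pos_of h1).le fun u hu => ?_
  have hu' : ‖u‖ = ρ := by simpa using hu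
  have e := (hg.differentiableAt (C.isOpen.mem_nhds (C.inside k u (hu' ▸ h1) (hu' ▸ h2)))).hasDerivAt.comp u
    (an_sphere k h1 h2' u hu).differentiableAt.hasDerivAt
  have e' : deriv (fun u => g (C.Ψ k u)) u = deriv g (C.Ψ k u) * deriv (C.Ψ k) u := e.deriv
  simp only [e']
  ring

/-- The argument principle, as an inequality. -/
theorem one_le_sum_wn {ρ : ℝ} (h1 : 1 - C.δ < ρ) (h2 : ρ < 1) {c : ℂ} (hc : c ∉ Ω) {f : ℂ → ℂ}
    (hf : DifferentiableOn ℂ f Ω) (hf0 : Tendsto f (cocompact ℂ) (𝓝 0)) (hne : ∃ x ∈ Ω, f x ≠ 0)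
    (h0 : ∀ k u, ‖u‖ = ρ → f (C.Ψ k u) ≠ 0) : 1 ≤ (∑ k, wn (fun u => f (C.Ψ k u)) ρ).re := by
  have h2' : ρ < 1 + C.δ := by linarith [C.δ_pos]
  have hρ := pos_of h1
  have hin : ∀ k u, ‖u‖ = ρ → C.Ψ k u ∈ Ω := fun k u hu => C.inside k u (hu ▸ h1) (hu ▸ h2)
  obtain ⟨m, hm, hm'⟩ := (isCompact_curves h1 h2').exists_forall_le' (f := fun t => ‖f t‖) (a := 0)
    (by
      refine (hf.continuousOn.mono ?_).norm
      intro t ht
      simp only [mem_iUnion, mem_image, mem_sphere_zero_iff_norm] at ht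
      obtain ⟨k, u, hu, rfl⟩ := ht
      exact hin k u hu)
    (by
      intro t ht
      simp only [mem_iUnion, mem_image, mem_sphere_zero_iff_norm] at ht
      obtain ⟨k, u, hu, rfl⟩ := ht
      exact norm_pos_iff.2 (h0 k u hu))
  have hm2 : ∀ k u, ‖u‖ = ρ → m ≤ ‖f (C.Ψ k u)‖ := fun k u hu =>
    hm' _ (mem_iUnion.2 ⟨k, u, by simpa using hu, rfl⟩)
  have hfreq : ∃ᶠ a in cocompact ℂ, f a ≠ 0 := by
    intro hev
    simp only [not_not] at hev
    obtain ⟨R, hR⟩ := eventually_cocompact_iff.1 hev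
    obtain ⟨a, ha1, ha2⟩ := (C.eventually_mem.and
      ((tendsto_norm_cocompact_atTop (E := ℂ)).eventually_gt_atTop R)).exists
    obtain ⟨x, hx, hx0⟩ := hne
    refine hx0 ((hf.analyticOnNhd C.isOpen).eqOn_zero_of_preconnected_of_eventuallyEq_zero C.conn
      ha1 ?_ hx)
    filter_upwards [(isOpen_lt continuous_const continuous_norm).mem_nhds ha2] with y hy
    exact hR y (le_of_lt hy)
  have hsm : ∀ᶠ a in cocompact ℂ, ‖f a‖ < m := hf0.norm.eventually_lt_const (by simpa using hm)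
  obtain ⟨a₀, hη, ⟨ha₀, hoff₀⟩, htot₀, hsm₀⟩ := (hfreq.and_eventually
    ((C.eventually_mem.and (eventually_off_cocompact h1 h2')).and
      ((eventually_tot_zero h1 h2).and hsm))).exists
  set η := f a₀ with hηdef
  have hf1 : DifferentiableOn ℂ (fun t => f t - η) Ω := hf.sub_const η
  have hclose : ∀ k, Good (fun u => f (C.Ψ k u) - η) ρ ∧
      wn (fun u => f (C.Ψ k u) - η) ρ = wn (fun u => f (C.Ψ k u)) ρ := fun k =>
    wn_eq_of_close hρ.le (good_comp h1 h2 hf k (h0 k)) fun u hu =>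
      ⟨(good_comp h1 h2 hf k (h0 k) u hu).1.sub analyticAt_const, by
        simpa using hsm₀.trans_le (hm2 k u (by simpa using hu))⟩
  have hfar : ∀ᶠ a in cocompact ℂ, f a - η ≠ 0 := by
    filter_upwards [hf0.eventually_ne (Ne.symm hη)] with a ha
    exact sub_ne_zero.2 ha
  obtain ⟨R, hR⟩ := eventually_cocompact_iff.1 hfar
  have hV : IsOpen {a | C.Off ρ a ∧ C.tot ρ a = -1} :=
    isOpen_iff_mem_nhds.2 fun a ha => eventually_tot_neg h1 h2 ha.1 ha.2
  have hVΩ : ∀ a, ¬(C.Off ρ a ∧ C.tot ρ a = -1) → a ∈ Ω := fun a ha => by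
    by_contra h
    exact ha ⟨off_of_not_mem h1 h2 h, tot_compl h1 h2 h⟩
  obtain ⟨l, g, hl, hg, hgK, hfg⟩ := exists_factor C.isOpen C.conn
    ((isCompact_closedBall (0 : ℂ) R).inter_right hV.isClosed_compl)
    (fun a ha => hVΩ a ha.2) hf1 (by
      obtain ⟨x, hx1, hx2⟩ := (C.eventually_mem.and hfar).exists
      exact ⟨x, hx1, hx2⟩)
  have hg0 : ∀ a, g a = 0 → C.Off ρ a ∧ C.tot ρ a = -1 := fun a ha => by
    by_contra h
    have e1 : f a - η = 0 := by rw [hfg a, ha, mul_zero]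
    refine hgK a ⟨?_, h⟩ ha
    by_contra h'
    exact hR a (le_of_lt (by simpa using h')) e1
  have hlz : ∀ b ∈ l, f b - η = 0 := fun b hb => by
    rw [hfg b, List.prod_eq_zero, zero_mul]
    exact List.mem_map.2 ⟨b, hb, sub_self b⟩
  have hloff : ∀ b ∈ l, C.Off ρ b := fun b hb k u hu he =>
    ((hclose k).1 u (by simpa using hu)).2 (by simpa [he] using hlz b hb)
  have ha₀l : a₀ ∈ l := by
    have e1 := hfg a₀
    rw [← hηdef, sub_self, eq_comm, mul_eq_zero] at e1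
    rcases e1 with e1 | e1
    · obtain ⟨b, hb, he⟩ := List.mem_map.1 (List.prod_eq_zero_iff.1 e1)
      rwa [sub_eq_zero.1 he]
    · have := (hg0 a₀ e1).2
      rw [htot₀] at this
      norm_num at this
  have hgg : ∀ k, Good (fun u => g (C.Ψ k u)) ρ := fun k =>
    good_comp h1 h2 hg k fun u hu e => (hg0 _ e).1 k u hu rfl
  have hcoff := off_of_not_mem h1 h2 hc
  have hpd : ∀ l' : List ℂ, Differentiable ℂ fun t => (l'.map fun _ => t - c).prod := by
    intro l'
    simp only [List.map_const', List.prod_replicate]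
    fun_prop
  have hZ := sum_wn_eq_zero h1 h2 (g := fun t => (l.map fun _ => t - c).prod * g t)
    ((hpd l).differentiableOn.mul hg) (L := -η) (neg_ne_zero.2 hη) (by
      have e1 : Tendsto (fun t => (l.map fun b => (t - c) / (t - b)).prod) (cocompact ℂ) (𝓝 1) := by
        have := tendsto_list_prod (f := fun b t => (t - c) / (t - b)) (x := cocompact ℂ)
          (a := fun _ => 1) l fun b _ => tendsto_ratio b c
        simpa using this
      have e2 := e1.mul (hf0.sub_const η)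
      rw [one_mul, zero_sub] at e2
      refine e2.congr' ?_
      have e3 : ∀ᶠ t in cocompact ℂ, ∀ b ∈ l, t ≠ b := by
        have := (eventually_all_finite (l.finite_toSet)).2 fun b _ => eventually_ne_cocompact b
        exact this
      filter_upwards [e3] with t ht
      rw [hfg t, ← mul_assoc, ← List.prod_map_mul]
      congr 2
      refine List.map_congr_left fun b hb => ?_
      have := sub_ne_zero.2 (ht b hb)
      field_simp) (by
      intro a ha h
      rcases mul_eq_zero.1 h with h | h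
      · obtain ⟨b, hb, he⟩ := List.mem_map.1 (List.prod_eq_zero_iff.1 h)
        exact absurd (sub_eq_zero.1 he ▸ ha) hc
      · exact hg0 a h)
  have e1 : ∀ k, wn (fun u => f (C.Ψ k u)) ρ =
      (l.map fun b => C.ind k ρ b).sum + wn (fun u => g (C.Ψ k u)) ρ := fun k => by
    obtain ⟨p1, p2⟩ := wn_list_prod l (F := fun b u => C.Ψ k u - b) hρ.le
      fun b hb => good_ind k h1 h2' (hloff b hb k)
    rw [← (hclose k).2]
    simp only [hfg]
    rw [wn_mul hρ.le p1 (hgg k), p2]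
    rfl
  have e2 : ∀ k, wn (fun u => (l.map fun _ => C.Ψ k u - c).prod * g (C.Ψ k u)) ρ =
      (l.map fun _ => C.ind k ρ c).sum + wn (fun u => g (C.Ψ k u)) ρ := fun k => by
    obtain ⟨p1, p2⟩ := wn_list_prod l (F := fun _ u => C.Ψ k u - c) hρ.le
      fun b _ => good_ind k h1 h2' (hcoff k)
    rw [wn_mul hρ.le p1 (hgg k), p2]
    rfl
  have e3 : ∀ (l' : List ℂ) (φ : ℂ → ℂ), ∑ k, (l'.map fun b => C.ind k ρ (φ b)).sum =
      (l'.map fun b => C.tot ρ (φ b)).sum := by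
    intro l' φ
    induction l' with
    | nil => simp
    | cons b l' ih => simp only [List.map_cons, List.sum_cons, Finset.sum_add_distrib, ih, tot]
  simp only [e2, Finset.sum_add_distrib] at hZ
  rw [e3 l fun _ => c, tot_compl h1 h2 hc] at hZ
  simp only [e1, Finset.sum_add_distrib]
  rw [e3 l fun b => b]
  have e4 : (l.map fun b => C.tot ρ b).sum + ∑ k, wn (fun u => g (C.Ψ k u)) ρ =
      (l.map fun b => C.tot ρ b + 1).sum := by
    rw [List.sum_map_add]
    simp only [List.map_const', List.sum_replicate, nsmul_eq_mul] at hZ ⊢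
    linear_combination hZ
  rw [e4]
  have e5 : ∀ l' : List ℂ, (l'.map fun b => C.tot ρ b + 1).sum.re =
      (l'.map fun b => (C.tot ρ b + 1).re).sum := by
    intro l'
    induction l' with
    | nil => simp
    | cons b l' ih => simp only [List.map_cons, List.sum_cons, add_re, ih] at ih ⊢
  rw [e5]
  refine List.single_le_sum (fun x hx => ?_) 1 (List.mem_map.2 ⟨a₀, ha₀l, by simp [htot₀]⟩)
  obtain ⟨b, hb, rfl⟩ := List.mem_map.1 hx
  rcases tot_cases h1 h2 (hloff b hb) with h | h <;> simp [h]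

end Collar

end Pool.Agent.MP_476a06_an
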