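import Pool.Agent.MP_476a06_an.Wind

/-! Holomorphic collar coordinates around analytic Jordan curves. -/

set_option autoImplicit false

open Complex Metric Set Filter Topology
open scoped Real

namespace Pool.Agent.MP_476a06_an

/-- The standard parametrisation of the unit circle with period one. -/
noncomputable def ee (t : ℝ) : ℂ := exp (2 * π * I * t)

lemma norm_ee (t : ℝ) : ‖ee t‖ = 1 := by
  have : (2 * π * I * t : ℂ) = ((2 * π * t : ℝ) : ℂ) * I := by push_cast; ring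
  rw [ee, this, norm_exp_ofReal_mul_I]

lemma ee_ne_zero (t : ℝ) : ee t ≠ 0 := exp_ne_zero _

lemma exists_ee {v : ℂ} (hv : ‖v‖ = 1) : ∃ t : ℝ, ee t = v := by
  refine ⟨arg v / (2 * π), ?_⟩
  have h1 : (2 * π * I * ((arg v / (2 * π) : ℝ) : ℂ)) = arg v * I := by
    have : (π : ℂ) ≠ 0 := by exact_mod_cast Real.pi_ne_zero
    push_cast
    field_simp
  rw [ee, h1]
  have := norm_mul_exp_arg_mul_I v
  rwa [hv, ofReal_one, one_mul] at this

lemma hasDerivAt_ee (t : ℝ) : HasDerivAt ee (2 * π * I * ee t) t := by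
  have h1 : HasDerivAt (fun z : ℂ => exp (2 * π * I * z)) (exp (2 * π * I * t) * (2 * π * I * 1)) t :=
    ((hasDerivAt_id (t : ℂ)).const_mul (2 * π * I)).cexp
  refine (h1.comp_ofReal).congr_deriv ?_
  rw [ee]
  ring

lemma ee_eq_iff {s t : ℝ} (h : ee s = ee t) : ∃ m : ℤ, s = t + m := by
  obtain ⟨m, hm⟩ := exp_eq_exp_iff_exists_int.1 h
  refine ⟨m, ?_⟩
  have h2 : (2 * π * I : ℂ) * (s : ℂ) = (2 * π * I) * ((t : ℂ) + m) := by rw [hm]; ring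
  exact_mod_cast mul_left_cancel₀ two_pi_I_ne h2

lemma ee_add_int (t : ℝ) (m : ℤ) : ee (t + m) = ee t := by
  unfold ee
  rw [exp_eq_exp_iff_exists_int]
  exact ⟨m, by push_cast; ring⟩

lemma per_int {γ : ℝ → ℂ} (hp : Function.Periodic γ 1) (t : ℝ) (m : ℤ) : γ (t + m) = γ t := by
  simpa using hp.int_mul m t

lemma exists_complexification {γ : ℝ → ℂ} {t₀ : ℝ} (h : AnalyticAt ℝ γ t₀) :
    ∃ G : ℂ → ℂ, AnalyticAt ℂ G t₀ ∧ ∀ᶠ t : ℝ in 𝓝 t₀, G t = γ t := by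
  obtain ⟨p, r, hp⟩ := h
  set q : FormalMultilinearSeries ℂ ℂ ℂ := FormalMultilinearSeries.ofScalars ℂ fun n => p.coeff n
    with hq
  have hrad : q.radius = p.radius := by
    unfold FormalMultilinearSeries.radius
    simp only [hq, FormalMultilinearSeries.ofScalars_norm,
      FormalMultilinearSeries.norm_apply_eq_norm_coef (p := p)]
  have hpos : 0 < q.radius := hrad ▸ hp.r_pos.trans_le hp.r_le
  have han : AnalyticAt ℂ q.sum 0 := (q.hasFPowerSeriesOnBall hpos).analyticAt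
  refine ⟨fun z => q.sum (z - t₀), ?_, ?_⟩
  · exact han.comp_of_eq (by fun_prop) (by simp)
  · have hb : ∀ᶠ t : ℝ in 𝓝 t₀, t ∈ Metric.eball t₀ r := Metric.eball_mem_nhds t₀ hp.r_pos
    filter_upwards [hb] with t ht
    have hs := hp.hasSum_sub ht
    have : (fun n => q n fun _ => ((t : ℂ) - t₀)) = fun n => p n fun _ => t - t₀ := by
      ext n
      rw [hq, FormalMultilinearSeries.ofScalars_apply_eq,
        FormalMultilinearSeries.apply_eq_pow_smul_coeff]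
      simp [mul_comm]
    rw [FormalMultilinearSeries.sum, this, hs.tsum_eq]

lemma exists_local_ext {γ : ℝ → ℂ} (h : AnalyticOnNhd ℝ γ univ) (hp : Function.Periodic γ 1)
    {v : ℂ} (hv : ‖v‖ = 1) :
    ∃ (Φ : ℂ → ℂ) (r : ℝ), 0 < r ∧ AnalyticOnNhd ℂ Φ (ball v r) ∧
      ∀ t : ℝ, ee t ∈ ball v r → Φ (ee t) = γ t := by
  obtain ⟨t₀, rfl⟩ := exists_ee hv
  obtain ⟨G, hG, hGγ⟩ := exists_complexification (h t₀ (mem_univ _))
  set σ : ℂ → ℂ := fun u => t₀ + log (u / ee t₀) / (2 * π * I) with hσ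
  have hσa : AnalyticAt ℂ σ (ee t₀) := by
    refine analyticAt_const.add (AnalyticAt.div_const ?_)
    refine AnalyticAt.clog (by fun_prop) ?_
    rw [div_self (ee_ne_zero _)]
    exact one_mem_slitPlane
  have hσ0 : σ (ee t₀) = t₀ := by simp [hσ, div_self (ee_ne_zero t₀)]
  have hΦ : AnalyticAt ℂ (fun u => G (σ u)) (ee t₀) := hG.comp_of_eq hσa hσ0
  obtain ⟨ε, hε, hε'⟩ := Metric.eventually_nhds_iff.1 hGγ
  have hclose : ∀ᶠ u in 𝓝 (ee t₀), dist (σ u) t₀ < ε := by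
    have := hσa.continuousAt.tendsto
    rw [hσ0] at this
    exact this.eventually (ball_mem_nhds _ hε)
  obtain ⟨r, hr, hr'⟩ := Metric.eventually_nhds_iff_ball.1 (hclose.and hΦ.eventually_analyticAt)
  refine ⟨fun u => G (σ u), r, hr, fun u hu => (hr' u hu).2, fun t ht => ?_⟩
  have h1 : exp (log (ee t / ee t₀)) = exp (2 * π * I * (t - t₀)) := by
    rw [exp_log (div_ne_zero (ee_ne_zero _) (ee_ne_zero _)), mul_sub, exp_sub]
    rfl
  obtain ⟨m, hm⟩ := exp_eq_exp_iff_exists_int.1 h1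
  have h2 : σ (ee t) = ((t + m : ℝ) : ℂ) := by
    simp only [hσ, hm]
    push_cast
    have := two_pi_I_ne
    field_simp
    ring
  have h3 := (hr' _ ht).1
  rw [h2, Complex.isometry_ofReal.dist_eq] at h3
  simp only [h2]
  rw [hε' h3, per_int hp]

lemma norm_normalize {u : ℂ} (hu : u ≠ 0) : ‖u / (‖u‖ : ℂ)‖ = 1 := by
  rw [norm_div, norm_real, norm_norm, div_self (norm_ne_zero_iff.2 hu)]

lemma dist_normalize {u : ℂ} (hu : u ≠ 0) : dist u (u / (‖u‖ : ℂ)) = |‖u‖ - 1| := by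
  have h0 : (‖u‖ : ℂ) ≠ 0 := by exact_mod_cast norm_ne_zero_iff.2 hu
  have : u - u / (‖u‖ : ℂ) = ((‖u‖ - 1 : ℝ) : ℂ) * (u / (‖u‖ : ℂ)) := by
    push_cast
    field_simp
  rw [dist_eq_norm, this, norm_mul, norm_normalize hu, mul_one, norm_real, Real.norm_eq_abs]

lemma exists_global_ext {γ : ℝ → ℂ} (h : AnalyticOnNhd ℝ γ univ) (hp : Function.Periodic γ 1) :
    ∃ Ψ : ℂ → ℂ, (∀ v : ℂ, ‖v‖ = 1 → AnalyticAt ℂ Ψ v) ∧ ∀ t : ℝ, Ψ (ee t) = γ t := by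
  have hloc : ∀ v : sphere (0 : ℂ) 1, ∃ (Φ : ℂ → ℂ) (r : ℝ), 0 < r ∧ AnalyticOnNhd ℂ Φ (ball v r) ∧
      ∀ t : ℝ, ee t ∈ ball (v : ℂ) r → Φ (ee t) = γ t := fun v =>
    exists_local_ext h hp (by simp)
  choose Φ r hr hΦ hΦγ using hloc
  obtain ⟨δ, hδ, hleb⟩ := lebesgue_number_lemma_of_metric (isCompact_sphere (0 : ℂ) 1)
    (c := fun v : sphere (0 : ℂ) 1 => ball (v : ℂ) (r v)) (fun _ => isOpen_ball)
    (fun v hv => mem_iUnion.2 ⟨⟨v, hv⟩, mem_ball_self (hr _)⟩)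
  have hF : ∀ x : ℂ, ∃ F : ℂ → ℂ, ‖x‖ = 1 → AnalyticOnNhd ℂ F (ball x δ) ∧
      ∀ t : ℝ, ee t ∈ ball x δ → F (ee t) = γ t := by
    intro x
    by_cases hx : ‖x‖ = 1
    · obtain ⟨i, hi⟩ := hleb x (by simpa using hx)
      exact ⟨Φ i, fun _ => ⟨(hΦ i).mono hi, fun t ht => hΦγ i t (hi ht)⟩⟩
    · exact ⟨0, fun h => absurd h hx⟩
  choose F hF using hF
  refine ⟨fun u => F (u / (‖u‖ : ℂ)) u, fun v hv => ?_, fun t => ?_⟩
  · have hv0 : v ≠ 0 := by rintro rfl; simp at hv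
    have hπ : ContinuousAt (fun u : ℂ => u / (‖u‖ : ℂ)) v :=
      continuousAt_id.div (by fun_prop) (by simp [hv])
    have hπv : v / (‖v‖ : ℂ) = v := by simp [hv]
    have e1 : ∀ᶠ u in 𝓝 v, u ≠ 0 := eventually_ne_nhds hv0
    have e2 : ∀ᶠ u in 𝓝 v, u ∈ ball v δ := ball_mem_nhds v hδ
    have e3 : ∀ᶠ u in 𝓝 v, dist v (u / (‖u‖ : ℂ)) < δ := by
      have : ContinuousAt (fun u : ℂ => dist v (u / (‖u‖ : ℂ))) v := continuousAt_const.dist hπ
      exact this.eventually_lt continuousAt_const (by simp [hv, hδ])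
    have e4 : ∀ᶠ u in 𝓝 v, dist u (u / (‖u‖ : ℂ)) < δ := by
      have : ContinuousAt (fun u : ℂ => dist u (u / (‖u‖ : ℂ))) v := continuousAt_id.dist hπ
      exact this.eventually_lt continuousAt_const (by simp [hv, hδ])
    refine ((hF v hv).1 v (mem_ball_self hδ)).congr ?_
    filter_upwards [e1, e2, e3, e4] with u h1 h2 h3 h4
    have hn := norm_normalize h1
    set x := u / (‖u‖ : ℂ) with hx
    obtain ⟨t₀, rfl⟩ := exists_ee hv
    have hmem : ee t₀ ∈ ball (ee t₀) δ ∩ ball x δ := ⟨mem_ball_self hδ, h3⟩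
    have hfr : ∃ᶠ z in 𝓝[≠] ee t₀, F (ee t₀) z = F x z := by
      have ht := (hasDerivAt_ee t₀).tendsto_nhdsNE (mul_ne_zero two_pi_I_ne (ee_ne_zero _))
      refine ht.frequently (Eventually.frequently ?_)
      have := (hasDerivAt_ee t₀).continuousAt.eventually
        ((isOpen_ball.inter isOpen_ball).mem_nhds hmem)
      filter_upwards [nhdsWithin_le_nhds this] with t ht
      rw [(hF _ hv).2 t ht.1, (hF _ hn).2 t ht.2]
    exact ((hF _ hv).1.mono inter_subset_left).eqOn_of_preconnected_of_frequently_eq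
      ((hF _ hn).1.mono inter_subset_right)
      ((convex_ball _ _).inter (convex_ball _ _)).isPreconnected hmem hfr ⟨h2, h4⟩
  · have : ee t / (‖ee t‖ : ℂ) = ee t := by simp [norm_ee]
    simp only [this]
    exact (hF _ (norm_ee t)).2 t (mem_ball_self hδ)

/-- Holomorphic collar coordinates for the boundary of `Ω`. -/
structure Collar (Ω : Set ℂ) (n : ℕ) where
  Ψ : Fin n → ℂ → ℂ
  δ : ℝ
  δ_pos : 0 < δ
  δ_lt : δ < 1
  isOpen : IsOpen Ω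
  conn : IsPreconnected Ω
  bdd : Bornology.IsBounded Ωᶜ
  an : ∀ k u, 1 - δ < ‖u‖ → ‖u‖ < 1 + δ → AnalyticAt ℂ (Ψ k) u
  dne : ∀ k u, 1 - δ < ‖u‖ → ‖u‖ < 1 + δ → deriv (Ψ k) u ≠ 0
  inj : ∀ k j u v, 1 - δ < ‖u‖ → ‖u‖ < 1 + δ → 1 - δ < ‖v‖ → ‖v‖ < 1 + δ →
    Ψ k u = Ψ j v → k = j ∧ u = v
  front : ∀ a, a ∈ frontier Ω ↔ ∃ k u, ‖u‖ = 1 ∧ Ψ k u = a
  inside : ∀ k u, 1 - δ < ‖u‖ → ‖u‖ < 1 → Ψ k u ∈ Ω

lemma exists_inner_point {Ω : Set ℂ} {Ψ : ℂ → ℂ} (ha : AnalyticAt ℂ Ψ 1) (hd : deriv Ψ 1 ≠ 0)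
    (h : ∀ᶠ ε : ℝ in 𝓝[>] (0 : ℝ), Ψ 1 + (ε : ℂ) * I * (deriv Ψ 1 * (2 * π * I)) ∈ Ω)
    {δ : ℝ} (hδ : 0 < δ) : ∃ u : ℂ, 1 - δ < ‖u‖ ∧ ‖u‖ < 1 ∧ Ψ u ∈ Ω := by
  have hs := ha.hasStrictDerivAt
  set φ := hs.localInverse Ψ (deriv Ψ 1) 1 hd with hφ
  have hφ1 : φ (Ψ 1) = 1 := (hs.eventually_left_inverse hd).self_of_nhds
  have hφd : HasDerivAt φ (deriv Ψ 1)⁻¹ (Ψ 1) := (hs.to_localInverse hd).hasDerivAt
  set y : ℂ → ℂ := fun ε => Ψ 1 + ε * I * (deriv Ψ 1 * (2 * π * I)) with hy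
  have hy0 : y 0 = Ψ 1 := by simp [hy]
  have hyd : HasDerivAt y (I * (deriv Ψ 1 * (2 * π * I))) 0 := by
    have := (((hasDerivAt_id (0 : ℂ)).mul_const I).mul_const (deriv Ψ 1 * (2 * π * I))).const_add (Ψ 1)
    exact this.congr_deriv (by ring)
  have hc : HasDerivAt (fun ε => φ (y ε)) (-(2 * π)) 0 := by
    refine (hφd.comp_of_eq 0 hyd hy0.symm).congr_deriv ?_
    field_simp
    simp
  have hc' : HasDerivAt (fun ε : ℝ => φ (y ε)) (-(2 * π)) 0 := by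
    have : HasDerivAt (fun ε => φ (y ε)) (-(2 * π)) ((0 : ℝ) : ℂ) := by simpa using hc
    exact this.comp_ofReal
  have h00 : φ (y ((0 : ℝ) : ℂ)) = 1 := by rw [ofReal_zero, hy0, hφ1]
  have hn := hc'.norm_sq.tendsto_slope_zero_right
  simp only [h00, zero_add, norm_one, one_pow] at hn
  have hneg : 2 * inner ℝ (1 : ℂ) (-(2 * π) : ℂ) < 0 := by
    simp [Real.pi_pos]
  have e1 := hn.eventually (eventually_lt_nhds hneg)
  have e2 : ∀ᶠ ε : ℝ in 𝓝 0, 1 - δ < ‖φ (y ε)‖ := by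
    refine continuousAt_const.eventually_lt hc'.continuousAt.norm ?_
    simp only [h00, norm_one]
    linarith
  have e3 : ∀ᶠ ε : ℝ in 𝓝 0, Ψ (φ (y ε)) = y ε := by
    have hyc : Tendsto (fun ε : ℝ => y ε) (𝓝 0) (𝓝 (Ψ 1)) := by
      have : Continuous fun ε : ℝ => y ε := by simp only [hy]; fun_prop
      have h2 := this.tendsto 0
      rwa [ofReal_zero, hy0] at h2
    exact hyc.eventually (hs.eventually_right_inverse hd)
  obtain ⟨ε, ⟨⟨h1, h2⟩, h3, h4⟩, hε⟩ := (((e1.and h).and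
    (nhdsWithin_le_nhds (e2.and e3))).and self_mem_nhdsWithin).exists
  refine ⟨φ (y ε), h3, ?_, by rw [h4]; exact h2⟩
  have hε' : 0 < ε := hε
  rw [smul_eq_mul, mul_neg_iff] at h1
  rcases h1 with ⟨_, h1⟩ | ⟨h1, _⟩
  · have := norm_nonneg (φ (y ε))
    nlinarith
  · exact absurd h1 (not_lt.2 (inv_pos.2 hε').le)

theorem exists_collar (Ω : Set ℂ) (n : ℕ) (γ : Fin n → ℝ → ℂ)
    (hO : IsOpen Ω) (hC : IsConnected Ω) (hB : Bornology.IsBounded Ωᶜ)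
    (han : ∀ k : Fin n, AnalyticOnNhd ℝ (γ k) Set.univ)
    (hper : ∀ k : Fin n, Function.Periodic (γ k) (1 : ℝ))
    (hinj : ∀ k : Fin n, Set.InjOn (γ k) (Set.Ico (0:ℝ) 1))
    (hd : ∀ k : Fin n, ∀ t : ℝ, deriv (γ k) t ≠ 0)
    (hdisj : ∀ k j : Fin n, k ≠ j → Disjoint (Set.range (γ k)) (Set.range (γ j)))
    (hfr : frontier Ω = ⋃ k : Fin n, Set.range (γ k))
    (hleft : ∀ k : Fin n, ∀ t : ℝ, ∀ᶠ ε : ℝ in 𝓝[>] (0:ℝ),
        γ k t + ((ε : ℝ) : ℂ) * Complex.I * deriv (γ k) t ∈ Ω) :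
    ∃ C : Collar Ω n, ∀ k t, C.Ψ k (ee t) = γ k t ∧
      deriv (γ k) t = deriv (C.Ψ k) (ee t) * (2 * π * I * ee t) := by
  choose Ψ hΨ hΨγ using fun k => exists_global_ext (han k) (hper k)
  have hder : ∀ k t, deriv (γ k) t = deriv (Ψ k) (ee t) * (2 * π * I * ee t) := by
    intro k t
    have h1 : HasDerivAt (fun t => Ψ k (ee t)) (deriv (Ψ k) (ee t) * (2 * π * I * ee t)) t :=
      (hΨ k _ (norm_ee t)).differentiableAt.hasDerivAt.comp_of_eq t (hasDerivAt_ee t) rfl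
    have h2 : (fun t => Ψ k (ee t)) = γ k := funext (hΨγ k)
    rw [h2] at h1
    exact h1.deriv
  have hdΨ : ∀ k v, ‖v‖ = 1 → deriv (Ψ k) v ≠ 0 := by
    intro k v hv h0
    obtain ⟨t, rfl⟩ := exists_ee hv
    exact hd k t (by rw [hder, h0, zero_mul])
  have hinj1 : InjOn (fun p : Fin n × ℂ => Ψ p.1 p.2) (univ ×ˢ sphere 0 1) := by
    rintro ⟨k, u⟩ ⟨-, hu⟩ ⟨j, v⟩ ⟨-, hv⟩ he
    obtain ⟨s, rfl⟩ := exists_ee (v := u) (by simpa using hu)
    obtain ⟨t, rfl⟩ := exists_ee (v := v) (by simpa using hv)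
    simp only [hΨγ] at he
    by_cases hkj : k = j
    · subst hkj
      have e1 : γ k (Int.fract s) = γ k s := by
        rw [← per_int (hper k) (Int.fract s) ⌊s⌋, Int.fract_add_floor]
      have e2 : γ k (Int.fract t) = γ k t := by
        rw [← per_int (hper k) (Int.fract t) ⌊t⌋, Int.fract_add_floor]
      have h3 := hinj k ⟨Int.fract_nonneg s, Int.fract_lt_one s⟩
        ⟨Int.fract_nonneg t, Int.fract_lt_one t⟩ (by rw [e1, e2, he])
      rw [← Int.fract_add_floor s, ← Int.fract_add_floor t, ee_add_int, ee_add_int, h3]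
    · exact absurd (mem_range_self t) (disjoint_left.1 (hdisj k j hkj) ⟨s, he⟩)
  obtain ⟨T, hT, hTinj⟩ := hinj1.exists_mem_nhdsSet (isCompact_univ.prod (isCompact_sphere 0 1))
    (by
      rintro ⟨k, u⟩ ⟨-, hu⟩
      have h1 : ContinuousAt (fun p : Fin n × ℂ => Ψ k p.2) (k, u) :=
        ContinuousAt.comp (f := Prod.snd) (hΨ k u (by simpa using hu)).continuousAt continuousAt_snd
      refine h1.congr ?_
      have : ∀ᶠ p : Fin n × ℂ in 𝓝 (k, u), p.1 = k :=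
        (continuous_fst.tendsto (k, u)).eventually (p := fun j => j = k) (by simp)
      filter_upwards [this] with p hp
      rw [hp])
    (by
      rintro ⟨k, u⟩ ⟨-, hu⟩
      have hu' : ‖u‖ = 1 := by simpa using hu
      have hs := (hΨ k u hu').hasStrictDerivAt
      have h1 := hs.eventually_left_inverse (hdΨ k u hu')
      refine ⟨{k} ×ˢ {x | hs.localInverse (Ψ k) _ u (hdΨ k u hu') (Ψ k x) = x},
        prod_mem_nhds (by simp) h1, ?_⟩
      rintro ⟨a, x⟩ ⟨ha, hx⟩ ⟨b, y⟩ ⟨hb, hy⟩ he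
      simp only [mem_singleton_iff] at ha hb
      subst ha hb
      simp only [mem_ofPred_eq] at hx hy he
      rw [← hx, ← hy, he])
  have hO' : ∀ v ∈ sphere (0 : ℂ) 1, ∀ᶠ u in 𝓝 v,
      ∀ k, (k, u) ∈ T ∧ AnalyticAt ℂ (Ψ k) u ∧ deriv (Ψ k) u ≠ 0 := by
    intro v hv
    have hv' : ‖v‖ = 1 := by simpa using hv
    rw [eventually_all]
    intro k
    have h1 : T ∈ 𝓝 (k, v) := mem_nhdsSet_iff_forall.1 hT _ ⟨mem_univ _, hv⟩
    have h2 : ∀ᶠ u in 𝓝 v, (k, u) ∈ T :=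
      (Continuous.prodMk_right k).continuousAt.eventually h1
    exact h2.and ((hΨ k v hv').eventually_analyticAt.and
      ((hΨ k v hv').deriv.continuousAt.eventually_ne (hdΨ k v hv')))
  obtain ⟨δ₀, hδ₀, hth⟩ := (isCompact_sphere (0 : ℂ) 1).exists_thickening_subset_open
    (t := interior {u | ∀ k, (k, u) ∈ T ∧ AnalyticAt ℂ (Ψ k) u ∧ deriv (Ψ k) u ≠ 0})
    isOpen_interior fun v hv => mem_interior_iff_mem_nhds.2 (hO' v hv)
  set δ := min δ₀ (1 / 2) with hδ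
  have hδpos : 0 < δ := lt_min hδ₀ (by norm_num)
  have hδ1 : δ ≤ 1 / 2 := min_le_right _ _
  have hδ2 : δ ≤ δ₀ := min_le_left _ _
  have hgood : ∀ u : ℂ, 1 - δ < ‖u‖ → ‖u‖ < 1 + δ →
      ∀ k, (k, u) ∈ T ∧ AnalyticAt ℂ (Ψ k) u ∧ deriv (Ψ k) u ≠ 0 := by
    intro u h1 h2
    have hu : u ≠ 0 := norm_pos_iff.1 (by linarith)
    refine interior_subset (hth (mem_thickening_iff.2 ⟨u / (‖u‖ : ℂ), ?_, ?_⟩))
    · simpa using norm_normalize hu
    · rw [dist_normalize hu, abs_lt]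
      constructor <;> linarith
  have hI : ∀ k j u v, 1 - δ < ‖u‖ → ‖u‖ < 1 + δ → 1 - δ < ‖v‖ → ‖v‖ < 1 + δ →
      Ψ k u = Ψ j v → k = j ∧ u = v := fun k j u v h1 h2 h3 h4 he =>
    Prod.ext_iff.1 (hTinj (hgood u h1 h2 k).1 (hgood v h3 h4 j).1 he)
  have hF : ∀ a, a ∈ frontier Ω ↔ ∃ k u, ‖u‖ = 1 ∧ Ψ k u = a := by
    intro a
    rw [hfr, mem_iUnion]
    constructor
    · rintro ⟨k, t, rfl⟩
      exact ⟨k, ee t, norm_ee t, hΨγ k t⟩
    · rintro ⟨k, u, hu, rfl⟩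
      obtain ⟨t, rfl⟩ := exists_ee hu
      exact ⟨k, t, (hΨγ k t).symm⟩
  refine ⟨⟨Ψ, δ, hδpos, by linarith, hO, hC.2, hB, fun k u h1 h2 => (hgood u h1 h2 k).2.1,
    fun k u h1 h2 => (hgood u h1 h2 k).2.2, hI, hF, ?_⟩, fun k t => ⟨hΨγ k t, hder k t⟩⟩
  intro k u h1 h2
  have hpc : IsPreconnected (Ψ k '' {u : ℂ | 1 - δ < ‖u‖ ∧ ‖u‖ < 1}) :=
    (isPreconnected_annulus _ _ (by linarith)).image _ fun u hu =>
      (hgood u hu.1 (by linarith [hu.2]) k).2.1.continuousAt.continuousWithinAt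
  have hsub : Ψ k '' {u : ℂ | 1 - δ < ‖u‖ ∧ ‖u‖ < 1} ⊆ Ω ∪ (closure Ω)ᶜ := by
    rintro _ ⟨x, hx, rfl⟩
    by_contra hcon
    simp only [mem_union, mem_compl_iff, not_or, not_not] at hcon
    have : Ψ k x ∈ frontier Ω := ⟨hcon.2, by rw [hO.interior_eq]; exact hcon.1⟩
    obtain ⟨j, v, hv, he⟩ := (hF _).1 this
    have := (hI j k v x (by linarith) (by linarith) hx.1 (by linarith [hx.2]) he).2
    subst this
    exact absurd hv hx.2.ne
  have hee : ee 0 = 1 := by simp [ee]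
  rcases hpc.subset_or_subset hO isClosed_closure.isOpen_compl
    (disjoint_compl_right.mono_left subset_closure) hsub with h | h
  · exact h ⟨u, ⟨h1, h2⟩, rfl⟩
  · have hl := hleft k 0
    rw [hder, ← hΨγ, hee, mul_one] at hl
    obtain ⟨x, hx1, hx2, hx3⟩ := exists_inner_point (hΨ k 1 norm_one) (hdΨ k 1 norm_one) hl hδpos
    exact absurd (subset_closure hx3) (h ⟨x, ⟨hx1, hx2⟩, rfl⟩)

end Pool.Agent.MP_476a06_an
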