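import Pool.Agent.MP_476a06_an.Collar

/-! Cauchy type integrals, the index of the level curves of a collar, and the rotation index. -/

set_option autoImplicit false

open Complex Metric Set Filter Topology MeasureTheory
open scoped Real Interval

namespace Pool.Agent.MP_476a06_an

lemma differentiableAt_cauchy_interval {p q : ℝ → ℂ} (hp : Continuous p) (hq : Continuous q)
    {a₀ : ℂ} (h0 : ∀ t, p t ≠ a₀) :
    DifferentiableAt ℂ (fun a => ∫ t in (0 : ℝ)..2 * π, q t / (p t - a)) a₀ := by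
  obtain ⟨t₀, -, ht₀⟩ := (isCompact_uIcc (a := (0 : ℝ)) (b := 2 * π)).exists_isMinOn
    nonempty_uIcc (f := fun t => ‖p t - a₀‖) (by fun_prop)
  set ε := ‖p t₀ - a₀‖ with hε
  have hεpos : 0 < ε := norm_pos_iff.2 (sub_ne_zero.2 (h0 t₀))
  have hlow : ∀ t ∈ Ι (0 : ℝ) (2 * π), ∀ a ∈ ball a₀ (ε / 2), ε / 2 ≤ ‖p t - a‖ := by
    intro t ht a ha
    have h1 : ε ≤ ‖p t - a₀‖ := ht₀ (uIoc_subset_uIcc ht)
    have h2 : ‖a - a₀‖ < ε / 2 := by simpa [dist_eq_norm] using ha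
    have h3 : ‖p t - a₀‖ ≤ ‖p t - a‖ + ‖a - a₀‖ := by
      simpa using norm_add_le (p t - a) (a - a₀)
    linarith
  refine (intervalIntegral.hasDerivAt_integral_of_dominated_loc_of_deriv_le
    (F := fun a t => q t / (p t - a)) (F' := fun a t => q t / (p t - a) ^ 2)
    (bound := fun t => ‖q t‖ / (ε / 2) ^ 2) (ball_mem_nhds a₀ (half_pos hεpos)) ?_ ?_ ?_ ?_ ?_ ?_).2.differentiableAt
  · exact Eventually.of_forall fun a =>
      (hq.measurable.div (hp.measurable.sub_const a)).aestronglyMeasurable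
  · exact (hq.div (hp.sub continuous_const) fun t => sub_ne_zero.2 (h0 t)).intervalIntegrable _ _
  · exact (hq.measurable.div ((hp.measurable.sub_const a₀).pow_const 2)).aestronglyMeasurable
  · refine Eventually.of_forall fun t ht a ha => ?_
    rw [norm_div, norm_pow]
    have := hlow t ht a ha
    gcongr
  · exact (Continuous.intervalIntegrable (by fun_prop) _ _)
  · refine Eventually.of_forall fun t ht a ha => ?_
    have h1 : p t - a ≠ 0 := norm_pos_iff.1 ((half_pos hεpos).trans_le (hlow t ht a ha))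
    have h2 := (hasDerivAt_const a (q t)).fun_div ((hasDerivAt_id' a).const_sub (p t)) h1
    refine h2.congr_deriv ?_
    ring

/-- A Cauchy type integral along the image of a circle. -/
noncomputable def CI (P F : ℂ → ℂ) (ρ : ℝ) (a : ℂ) : ℂ := ∮ u in C(0, ρ), F u / (P u - a)

lemma differentiableAt_CI {P F : ℂ → ℂ} {ρ : ℝ} (hρ : 0 ≤ ρ)
    (hP : ∀ u ∈ sphere (0 : ℂ) ρ, ContinuousAt P u) (hF : ∀ u ∈ sphere (0 : ℂ) ρ, ContinuousAt F u)
    {a : ℂ} (ha : ∀ u ∈ sphere (0 : ℂ) ρ, P u ≠ a) : DifferentiableAt ℂ (CI P F ρ) a := by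
  have h := differentiableAt_cauchy_interval (circle_continuous hρ hP)
    (q := fun t => circleMap 0 ρ t * I * F (circleMap 0 ρ t))
    ((by fun_prop : Continuous fun t => circleMap 0 ρ t * I).mul (circle_continuous hρ hF))
    (a₀ := a) fun t => ha _ (circleMap_mem_sphere 0 hρ t)
  have he : CI P F ρ = fun a => ∫ t in (0 : ℝ)..2 * π,
      circleMap 0 ρ t * I * F (circleMap 0 ρ t) / (P (circleMap 0 ρ t) - a) := by
    ext a
    simp only [CI, circleIntegral, deriv_circleMap, smul_eq_mul, mul_div_assoc]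
  rwa [he]

lemma CI_bound {P F : ℂ → ℂ} {ρ : ℝ} (hρ : 0 ≤ ρ)
    (hP : ∀ u ∈ sphere (0 : ℂ) ρ, ContinuousAt P u) (hF : ∀ u ∈ sphere (0 : ℂ) ρ, ContinuousAt F u) :
    ∃ M : ℝ, ∀ᶠ a in cocompact ℂ, ‖CI P F ρ a‖ ≤ M / ‖a‖ := by
  obtain ⟨B, hB⟩ := (isCompact_sphere (0 : ℂ) ρ).exists_bound_of_continuousOn
    (f := P) fun u hu => (hP u hu).continuousWithinAt
  obtain ⟨D, hD⟩ := (isCompact_sphere (0 : ℂ) ρ).exists_bound_of_continuousOn
    (f := F) fun u hu => (hF u hu).continuousWithinAt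
  refine ⟨2 * π * ρ * (2 * D), ?_⟩
  have h1 : ∀ᶠ a in cocompact ℂ, 2 * |B| + 1 ≤ ‖a‖ :=
    (tendsto_norm_cocompact_atTop (E := ℂ)).eventually (eventually_ge_atTop _)
  filter_upwards [h1] with a ha
  have hB0 := abs_nonneg B
  have hB1 := le_abs_self B
  have hpos : 0 < ‖a‖ := by linarith
  rw [mul_div_assoc]
  refine circleIntegral.norm_integral_le_of_norm_le_const hρ fun u hu => ?_
  have h2 : ‖a‖ / 2 ≤ ‖P u - a‖ := by
    have := norm_sub_norm_le a (P u)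
    rw [norm_sub_rev] at this
    linarith [hB u hu]
  have h3 : 0 ≤ D := (norm_nonneg _).trans (hD u hu)
  rw [norm_div]
  calc ‖F u‖ / ‖P u - a‖ ≤ D / (‖a‖ / 2) := by
        have := hD u hu
        gcongr
    _ = 2 * D / ‖a‖ := by field_simp

lemma tendsto_of_bound {f : ℂ → ℂ} {M : ℝ} (h : ∀ᶠ a in cocompact ℂ, ‖f a‖ ≤ M / ‖a‖) :
    Tendsto f (cocompact ℂ) (𝓝 0) :=
  squeeze_zero_norm' h (tendsto_const_nhds.div_atTop (tendsto_norm_cocompact_atTop (E := ℂ)))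

lemma wn_eq_of_lift {h : ℂ → ℂ} {ρ : ℝ} (hρ : 0 ≤ ρ) (hg : Good h ρ) {l : ℝ → ℂ} (hl : Continuous l)
    (he : ∀ t, exp (l t) = h (circleMap 0 ρ t)) : wn h ρ = (2 * π * I)⁻¹ * (l (2 * π) - l 0) := by
  rw [wn_eq_interval, integral_logDeriv_eq_of_lift (circle_hasDerivAt hρ fun u hu => (hg u hu).1)
    ((circle_continuous hρ fun u hu => (hg u hu).1.deriv.continuousAt).mul (by fun_prop)) hl he]

lemma wn_const_mul {h : ℂ → ℂ} {ρ : ℝ} (hρ : 0 ≤ ρ) (hg : Good h ρ) {c : ℂ} (hc : c ≠ 0) :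
    Good (fun u => c * h u) ρ ∧ wn (fun u => c * h u) ρ = wn h ρ := by
  have h1 : Good (fun _ => c) ρ := fun u _ => ⟨analyticAt_const, hc⟩
  exact ⟨h1.mul hg, by rw [wn_mul hρ h1 hg, wn_const, zero_add]⟩

namespace Collar

variable {Ω : Set ℂ} {n : ℕ} (C : Collar Ω n)

/-- The index of the point `a` with respect to the level curve number `k` at level `ρ`. -/
noncomputable def ind (k : Fin n) (ρ : ℝ) (a : ℂ) : ℂ := wn (fun u => C.Ψ k u - a) ρ

/-- The total index. -/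
noncomputable def tot (ρ : ℝ) (a : ℂ) : ℂ := ∑ k, C.ind k ρ a

variable {C}

lemma pos_of {ρ : ℝ} (h : 1 - C.δ < ρ) : 0 < ρ := by linarith [C.δ_lt]

lemma an_sphere (k : Fin n) {ρ : ℝ} (h1 : 1 - C.δ < ρ) (h2 : ρ < 1 + C.δ) :
    ∀ u ∈ sphere (0 : ℂ) ρ, AnalyticAt ℂ (C.Ψ k) u := fun u hu => by
  have : ‖u‖ = ρ := by simpa using hu
  exact C.an k u (this ▸ h1) (this ▸ h2)

lemma ind_eq_CI (k : Fin n) (ρ : ℝ) :
    C.ind k ρ = fun a => (2 * π * I)⁻¹ * CI (C.Ψ k) (deriv (C.Ψ k)) ρ a := by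
  ext a
  simp only [ind, wn, CI, deriv_sub_const]

lemma good_ind (k : Fin n) {ρ : ℝ} (h1 : 1 - C.δ < ρ) (h2 : ρ < 1 + C.δ) {a : ℂ}
    (ha : ∀ u, ‖u‖ = ρ → C.Ψ k u ≠ a) : Good (fun u => C.Ψ k u - a) ρ := fun u hu =>
  ⟨(an_sphere k h1 h2 u hu).sub analyticAt_const, sub_ne_zero.2 (ha u (by simpa using hu))⟩

lemma ind_differentiableAt (k : Fin n) {ρ : ℝ} (h1 : 1 - C.δ < ρ) (h2 : ρ < 1 + C.δ) {a : ℂ}
    (ha : ∀ u, ‖u‖ = ρ → C.Ψ k u ≠ a) : DifferentiableAt ℂ (C.ind k ρ) a := by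
  rw [ind_eq_CI]
  exact (differentiableAt_CI (pos_of h1).le (fun u hu => (an_sphere k h1 h2 u hu).continuousAt)
    (fun u hu => (an_sphere k h1 h2 u hu).deriv.continuousAt)
    fun u hu => ha u (by simpa using hu)).const_mul _

lemma ind_const (k : Fin n) {ρ : ℝ} (h1 : 1 - C.δ < ρ) (h2 : ρ < 1 + C.δ) {s : Set ℂ}
    (hs : IsPreconnected s) (ha : ∀ a ∈ s, ∀ u, ‖u‖ = ρ → C.Ψ k u ≠ a) {a b : ℂ}
    (has : a ∈ s) (hbs : b ∈ s) : C.ind k ρ a = C.ind k ρ b :=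
  int_const hs (fun x hx => (ind_differentiableAt k h1 h2 (ha x hx)).continuousAt.continuousWithinAt)
    (fun x hx => (good_ind k h1 h2 (ha x hx)).exists_int (pos_of h1).le) has hbs

lemma ind_tendsto (k : Fin n) {ρ : ℝ} (h1 : 1 - C.δ < ρ) (h2 : ρ < 1 + C.δ) :
    Tendsto (C.ind k ρ) (cocompact ℂ) (𝓝 0) := by
  obtain ⟨M, hM⟩ := CI_bound (pos_of h1).le (fun u hu => (an_sphere k h1 h2 u hu).continuousAt)
    (fun u hu => (an_sphere k h1 h2 u hu).deriv.continuousAt)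
  rw [ind_eq_CI]
  simpa using (tendsto_of_bound hM).const_mul (2 * π * I)⁻¹

include C in
lemma eventually_mem : ∀ᶠ a in cocompact ℂ, a ∈ Ω := by
  have := C.bdd
  rwa [Bornology.isBounded_def, compl_compl, Metric.cobounded_eq_cocompact] at this

lemma not_mem_of_norm_one (k : Fin n) {u : ℂ} (hu : ‖u‖ = 1) : C.Ψ k u ∉ Ω := fun h => by
  have := (C.front _).2 ⟨k, u, hu, rfl⟩
  exact this.2 (by rwa [C.isOpen.interior_eq])

lemma mem_closure_of (k : Fin n) {u : ℂ} (h1 : 1 - C.δ < ‖u‖) (hu : ‖u‖ ≤ 1) :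
    C.Ψ k u ∈ closure Ω := by
  rcases hu.lt_or_eq with h | h
  · exact subset_closure (C.inside k u h1 h)
  · exact frontier_subset_closure ((C.front _).2 ⟨k, u, h, rfl⟩)

lemma ind_one (k : Fin n) {a : ℂ} (ha : a ∈ Ω) : C.ind k 1 a = 0 := by
  have h1 : 1 - C.δ < 1 := by linarith [C.δ_pos]
  have h2 : 1 < 1 + C.δ := by linarith [C.δ_pos]
  have h3 : ∀ᶠ b in cocompact ℂ, C.ind k 1 b = C.ind k 1 a :=
    C.eventually_mem.mono fun b hb => ind_const k h1 h2 C.conn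
      (fun x hx u hu he => not_mem_of_norm_one k hu (he ▸ hx)) hb ha
  exact tendsto_nhds_unique (tendsto_const_nhds.congr' (EventuallyEq.symm h3)) (ind_tendsto k h1 h2)

lemma ind_shift (k : Fin n) {r R : ℝ} (h1 : 1 - C.δ < r) (hle : r ≤ R) (h2 : R < 1 + C.δ) {a : ℂ}
    (ha : ∀ u, r ≤ ‖u‖ → ‖u‖ ≤ R → C.Ψ k u ≠ a) : C.ind k R a = C.ind k r a :=
  wn_annulus (pos_of h1) hle fun u e1 e2 =>
    ⟨(C.an k u (h1.trans_le e1) (e2.trans_lt h2)).sub analyticAt_const, sub_ne_zero.2 (ha u e1 e2)⟩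

lemma differentiableOn_Ψ (k : Fin n) :
    DifferentiableOn ℂ (C.Ψ k) {u : ℂ | 1 - C.δ < ‖u‖ ∧ ‖u‖ < 1 + C.δ} :=
  fun u hu => (C.an k u hu.1 hu.2).differentiableAt.differentiableWithinAt

lemma ind_inner (k : Fin n) {ρ : ℝ} {v : ℂ} (h1 : 1 - C.δ < ρ) (h2 : ρ < ‖v‖) (h3 : ‖v‖ < 1) :
    C.ind k ρ (C.Ψ k v) = -1 := by
  have hδ := C.δ_pos
  have hv1 : 1 - C.δ < ‖v‖ := h1.trans h2
  have hv2 : ‖v‖ < 1 + C.δ := by linarith
  have hD : ∀ u : ℂ, 1 - C.δ < ‖u‖ → ‖u‖ < 1 + C.δ →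
      AnalyticAt ℂ (dslope (C.Ψ k) v) u ∧ dslope (C.Ψ k) v u ≠ 0 := by
    intro u e1 e2
    refine ⟨((differentiableOn_dslope ((isOpen_annulus _ _).mem_nhds ⟨hv1, hv2⟩)).2
      (differentiableOn_Ψ k)).analyticAt ((isOpen_annulus _ _).mem_nhds ⟨e1, e2⟩), ?_⟩
    by_cases huv : u = v
    · rw [huv, dslope_same]
      exact C.dne k v hv1 hv2
    · intro h0
      have := sub_smul_dslope (C.Ψ k) v u
      rw [h0, smul_zero, eq_comm, sub_eq_zero] at this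
      exact huv (C.inj k k u v e1 e2 hv1 hv2 this).2
  have hfac : (fun u => C.Ψ k u - C.Ψ k v) = fun u => (u - v) * dslope (C.Ψ k) v u := by
    ext u
    rw [← smul_eq_mul, sub_smul_dslope]
  have hG : ∀ r : ℝ, 1 - C.δ < r → r < 1 + C.δ → Good (dslope (C.Ψ k) v) r := fun r e1 e2 u hu => by
    have : ‖u‖ = r := by simpa using hu
    exact hD u (this ▸ e1) (this ▸ e2)
  have e1 := ind_one (C := C) k (C.inside k v hv1 h3)
  have hρ := pos_of h1
  rw [ind, hfac, wn_mul zero_le_one (good_sub h3.ne) (hG 1 (by linarith) (by linarith)),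
    wn_sub_in h3, wn_annulus hρ (by linarith : ρ ≤ 1)
      fun u e1 e2 => hD u (h1.trans_le e1) (by linarith)] at e1
  rw [ind, hfac, wn_mul hρ.le (good_sub h2.ne') (hG ρ h1 (by linarith)), wn_sub_out hρ.le h2]
  linear_combination e1

lemma exists_mid {ρ : ℝ} (h0 : 0 < ρ) (h2 : ρ < 1) : ∃ v : ℂ, ρ < ‖v‖ ∧ ‖v‖ < 1 := by
  refine ⟨((ρ + 1) / 2 : ℝ), ?_⟩
  rw [norm_real, Real.norm_eq_abs, abs_of_pos (by linarith)]
  constructor <;> linarith

lemma ind_outer (j k : Fin n) {ρ : ℝ} {v : ℂ} (h1 : 1 - C.δ < ρ) (h2 : ρ < 1) (h3 : ρ < ‖v‖)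
    (h4 : ‖v‖ < 1 + C.δ) : C.ind j ρ (C.Ψ k v) = if j = k then -1 else 0 := by
  have hδ := C.δ_pos
  obtain ⟨x, hx1, hx2⟩ := exists_mid (pos_of h1) h2
  have hs : IsPreconnected (C.Ψ k '' {u : ℂ | ρ < ‖u‖ ∧ ‖u‖ < 1 + C.δ}) :=
    (isPreconnected_annulus _ _ (pos_of h1).le).image _ fun u hu =>
      (C.an k u (h1.trans hu.1) hu.2).continuousAt.continuousWithinAt
  rw [ind_const j h1 (by linarith) hs ?_ ⟨v, ⟨h3, h4⟩, rfl⟩ ⟨x, ⟨hx1, by linarith⟩, rfl⟩]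
  · split_ifs with hjk
    · subst hjk
      exact ind_inner j h1 hx1 hx2
    · rw [← ind_shift j h1 h2.le (by linarith), ind_one j (C.inside k x (by linarith) hx2)]
      intro u e1 e2 he
      exact hjk (C.inj j k u x (by linarith) (by linarith) (by linarith) (by linarith) he).1
  · rintro _ ⟨y, hy, rfl⟩ u hu he
    have := (C.inj j k u y (by linarith) (by linarith) (by linarith [hy.1]) hy.2 he).2
    subst this
    exact absurd hu hy.1.ne'

lemma tot_outer (k : Fin n) {ρ : ℝ} {v : ℂ} (h1 : 1 - C.δ < ρ) (h2 : ρ < 1) (h3 : ρ < ‖v‖)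
    (h4 : ‖v‖ < 1 + C.δ) : C.tot ρ (C.Ψ k v) = -1 := by
  simp [tot, ind_outer _ k h1 h2 h3 h4]

lemma tot_differentiableAt {ρ : ℝ} (h1 : 1 - C.δ < ρ) (h2 : ρ < 1 + C.δ) {a : ℂ}
    (ha : ∀ k u, ‖u‖ = ρ → C.Ψ k u ≠ a) : DifferentiableAt ℂ (C.tot ρ) a := by
  unfold tot
  exact DifferentiableAt.fun_sum fun k _ => ind_differentiableAt k h1 h2 (ha k)

lemma tot_int {ρ : ℝ} (h1 : 1 - C.δ < ρ) (h2 : ρ < 1 + C.δ) {a : ℂ}
    (ha : ∀ k u, ‖u‖ = ρ → C.Ψ k u ≠ a) : ∃ m : ℤ, C.tot ρ a = m := by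
  choose m hm using fun k => (good_ind k h1 h2 (ha k)).exists_int (pos_of h1).le
  exact ⟨∑ k, m k, by simp [tot, ind, hm]⟩

lemma tot_tendsto {ρ : ℝ} (h1 : 1 - C.δ < ρ) (h2 : ρ < 1 + C.δ) :
    Tendsto (C.tot ρ) (cocompact ℂ) (𝓝 0) := by
  have := tendsto_finsetSum Finset.univ fun k _ => ind_tendsto (C := C) k h1 h2
  rw [Finset.sum_const_zero] at this
  exact this

lemma off_of_not_mem {ρ : ℝ} (h1 : 1 - C.δ < ρ) (h2 : ρ < 1) {a : ℂ} (ha : a ∉ Ω) :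
    ∀ k u, ‖u‖ = ρ → C.Ψ k u ≠ a := fun k u hu he =>
  ha (he ▸ C.inside k u (hu ▸ h1) (hu ▸ h2))

lemma tot_compl {ρ : ℝ} (h1 : 1 - C.δ < ρ) (h2 : ρ < 1) {a : ℂ} (ha : a ∉ Ω) : C.tot ρ a = -1 := by
  have hδ := C.δ_pos
  have h2' : ρ < 1 + C.δ := by linarith
  have hcont : ∀ x ∉ Ω, ContinuousAt (C.tot ρ) x := fun x hx =>
    (tot_differentiableAt h1 h2' (off_of_not_mem h1 h2 hx)).continuousAt
  have hE : IsClopen {x | x ∉ Ω ∧ C.tot ρ x ≠ -1} := by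
    constructor
    · have : {x | x ∉ Ω ∧ C.tot ρ x ≠ -1} = Ωᶜ ∩ C.tot ρ ⁻¹' {z | 1 ≤ ‖z + 1‖} := by
        ext x
        simp only [mem_ofPred_eq, mem_inter_iff, mem_compl_iff, mem_preimage, and_congr_right_iff]
        intro hx
        obtain ⟨m, hm⟩ := tot_int h1 h2' (off_of_not_mem h1 h2 hx)
        rw [hm]
        constructor
        · intro h
          have h' : m + 1 ≠ 0 := fun e => h (by
            have : m = -1 := by omega
            simp [this])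
          have : ((m : ℂ) + 1) = ((m + 1 : ℤ) : ℂ) := by push_cast; ring
          rw [this, Complex.norm_intCast]
          exact_mod_cast Int.one_le_abs h'
        · intro h e
          rw [e] at h
          norm_num at h
      rw [this]
      exact ContinuousOn.preimage_isClosed_of_isClosed
        (fun x hx => (hcont x hx).continuousWithinAt) C.isOpen.isClosed_compl
        (isClosed_le continuous_const (by fun_prop))
    · rw [isOpen_iff_mem_nhds]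
      rintro x ⟨hx1, hx2⟩
      have hx3 : x ∉ closure Ω := by
        intro hcl
        obtain ⟨k, v, hv, rfl⟩ := (C.front x).1 ⟨hcl, by rwa [C.isOpen.interior_eq]⟩
        exact hx2 (tot_outer k h1 h2 (by linarith) (by linarith))
      filter_upwards [isClosed_closure.isOpen_compl.mem_nhds hx3, (hcont x hx1).eventually_ne hx2]
        with y hy1 hy2
      exact ⟨fun h => hy1 (subset_closure h), hy2⟩
  rcases isClopen_iff.1 hE with h | h
  · by_contra hne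
    exact (h ▸ (show a ∈ {x | x ∉ Ω ∧ C.tot ρ x ≠ -1} from ⟨ha, hne⟩) : a ∈ (∅ : Set ℂ))
  · obtain ⟨x, hx⟩ := C.eventually_mem.exists
    exact absurd hx (h ▸ mem_univ x : x ∈ {x | x ∉ Ω ∧ C.tot ρ x ≠ -1}).1

lemma ind_zero (k : Fin n) {ρ : ℝ} (h1 : 1 - C.δ < ρ) (h2 : ρ ≤ 1) {a : ℂ} (ha : a ∈ Ω)
    (h : ∀ u, ρ ≤ ‖u‖ → ‖u‖ ≤ 1 → C.Ψ k u ≠ a) : C.ind k ρ a = 0 := by
  rw [← ind_shift k h1 h2 (by linarith [C.δ_pos]) h, ind_one k ha]

lemma tot_cases {ρ : ℝ} (h1 : 1 - C.δ < ρ) (h2 : ρ < 1) {a : ℂ}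
    (ha : ∀ k u, ‖u‖ = ρ → C.Ψ k u ≠ a) : C.tot ρ a = -1 ∨ C.tot ρ a = 0 := by
  by_cases hΩ : a ∈ Ω
  · by_cases hex : ∃ k v, ρ < ‖v‖ ∧ ‖v‖ < 1 ∧ C.Ψ k v = a
    · obtain ⟨k, v, e1, e2, rfl⟩ := hex
      exact Or.inl (tot_outer k h1 h2 e1 (by linarith [C.δ_pos]))
    · refine Or.inr (Finset.sum_eq_zero fun k _ => ind_zero k h1 h2.le hΩ fun u e1 e2 he => ?_)
      rcases e1.lt_or_eq with e1 | e1
      · rcases e2.lt_or_eq with e2 | e2
        · exact hex ⟨k, u, e1, e2, he⟩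
        · exact not_mem_of_norm_one k e2 (he ▸ hΩ)
      · exact ha k u e1.symm he
  · exact Or.inl (tot_compl h1 h2 hΩ)

lemma eventually_off {a : ℂ} (ha : a ∈ Ω) :
    ∀ᶠ ρ in 𝓝[<] (1 : ℝ), ∀ k u, ρ ≤ ‖u‖ → ‖u‖ ≤ 1 → C.Ψ k u ≠ a := by
  have hδ := C.δ_pos
  have h0 : ∀ᶠ ρ in 𝓝[<] (1 : ℝ), 1 - C.δ < ρ :=
    nhdsWithin_le_nhds (eventually_gt_nhds (by linarith))
  by_cases hex : ∃ k v, 1 - C.δ < ‖v‖ ∧ ‖v‖ ≤ 1 ∧ C.Ψ k v = a
  · obtain ⟨k, v, e1, e2, rfl⟩ := hex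
    have e3 : ‖v‖ < 1 := lt_of_le_of_ne e2 fun e => not_mem_of_norm_one k e ha
    have h3 : ∀ᶠ ρ in 𝓝[<] (1 : ℝ), ‖v‖ < ρ := nhdsWithin_le_nhds (eventually_gt_nhds e3)
    filter_upwards [h0, h3] with ρ g1 g2 j u g3 g4 he
    have := (C.inj j k u v (by linarith) (by linarith) e1 (by linarith) he).2
    subst this
    linarith
  · filter_upwards [h0] with ρ g1 j u g3 g4 he
    exact hex ⟨j, u, by linarith, g4, he⟩

lemma good_tangent (k : Fin n) {ρ : ℝ} (h1 : 1 - C.δ < ρ) (h2 : ρ < 1 + C.δ) :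
    Good (fun u => u * deriv (C.Ψ k) u) ρ := fun u hu => by
  have e : ‖u‖ = ρ := by simpa using hu
  exact ⟨analyticAt_id.mul (an_sphere k h1 h2 u hu).deriv,
    mul_ne_zero (norm_pos_iff.1 (e ▸ pos_of h1)) (C.dne k u (e ▸ h1) (e ▸ h2))⟩

lemma exists_close (k : Fin n) : ∃ r : ℝ, 1 - C.δ < r ∧ r < 1 ∧ ∀ u : ℂ, ‖u‖ = 1 →
    ‖(C.Ψ k (r * u) - C.Ψ k u) - (r - 1) * (u * deriv (C.Ψ k) u)‖ <
      ‖(r - 1) * (u * deriv (C.Ψ k) u)‖ := by
  have hδ := C.δ_pos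
  have hδ' := C.δ_lt
  obtain ⟨u₀, hu₀, hmin⟩ := (isCompact_sphere (0 : ℂ) 1).exists_isMinOn ⟨1, by simp⟩
    (f := fun u => ‖deriv (C.Ψ k) u‖) fun u hu =>
      (an_sphere k (by linarith) (by linarith) u hu).deriv.continuousAt.norm.continuousWithinAt
  have hu₀' : ‖u₀‖ = 1 := by simpa using hu₀
  set m := ‖deriv (C.Ψ k) u₀‖ with hm
  have hmpos : 0 < m := norm_pos_iff.2 (C.dne k u₀ (by linarith) (by linarith))
  have huc := (isCompact_annulus (1 - C.δ / 2) 1).uniformContinuousOn_of_continuous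
    (f := deriv (C.Ψ k)) fun u hu =>
      (C.an k u (by linarith [hu.1]) (by linarith [hu.2])).deriv.continuousAt.continuousWithinAt
  obtain ⟨η, hη, hη'⟩ := Metric.uniformContinuousOn_iff.1 huc (m / 2) (half_pos hmpos)
  set r := max (1 - C.δ / 2) (1 - η / 2) with hr
  have hr1 : 1 - C.δ / 2 ≤ r := le_max_left _ _
  have hr2 : 1 - η / 2 ≤ r := le_max_right _ _
  have hr3 : r < 1 := max_lt (by linarith) (by linarith)
  refine ⟨r, by linarith, hr3, fun u hu => ?_⟩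
  have hn : ∀ c ∈ Icc r 1, ‖(c : ℂ) * u‖ = c := fun c hc => by
    rw [norm_mul, hu, mul_one, norm_real, Real.norm_eq_abs, abs_of_pos (by linarith [hc.1])]
  have hder : ∀ c ∈ Icc r 1, HasDerivWithinAt
      (fun c : ℝ => C.Ψ k (c * u) - c * (u * deriv (C.Ψ k) u))
      (deriv (C.Ψ k) (c * u) * u - u * deriv (C.Ψ k) u) (Icc r 1) c := by
    intro c hc
    have e1 : HasDerivAt (fun z : ℂ => C.Ψ k (z * u) - z * (u * deriv (C.Ψ k) u))
        (deriv (C.Ψ k) (c * u) * u - u * deriv (C.Ψ k) u) (c : ℂ) := by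
      have a1 := (C.an k (c * u) (by rw [hn c hc]; linarith [hc.1])
        (by rw [hn c hc]; linarith [hc.2])).differentiableAt.hasDerivAt
      have a2 := a1.comp_of_eq (c : ℂ) ((hasDerivAt_id' (c : ℂ)).mul_const u) rfl
      exact (a2.sub ((hasDerivAt_id' (c : ℂ)).mul_const (u * deriv (C.Ψ k) u))).congr_deriv (by ring)
    exact e1.comp_ofReal.hasDerivWithinAt
  have hb := norm_image_sub_le_of_norm_deriv_le_segment' (C := m / 2) hder (fun c hc => by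
    have hc' : c ∈ Icc r 1 := Ico_subset_Icc_self hc
    have e1 : deriv (C.Ψ k) (c * u) * u - u * deriv (C.Ψ k) u =
      (deriv (C.Ψ k) (c * u) - deriv (C.Ψ k) u) * u := by ring
    rw [e1, norm_mul, hu, mul_one, ← dist_eq_norm]
    refine (hη' _ ⟨by rw [hn c hc']; linarith [hc.1], by rw [hn c hc']; exact hc'.2⟩ _
      ⟨by linarith, hu.le⟩ ?_).le
    have e2 : (c : ℂ) * u - u = ((c - 1 : ℝ) : ℂ) * u := by push_cast; ring
    rw [dist_eq_norm, e2, norm_mul, hu, mul_one, norm_real, Real.norm_eq_abs, abs_lt]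
    constructor <;> linarith [hc.1, hc.2]) 1 ⟨hr3.le, le_rfl⟩
  have e3 : (C.Ψ k (r * u) - C.Ψ k u) - (r - 1) * (u * deriv (C.Ψ k) u) =
      -((C.Ψ k (((1 : ℝ) : ℂ) * u) - ((1 : ℝ) : ℂ) * (u * deriv (C.Ψ k) u)) -
        (C.Ψ k (r * u) - r * (u * deriv (C.Ψ k) u))) := by
    simp only [ofReal_one, one_mul]
    ring
  have e4 : ‖((r : ℂ) - 1)‖ = 1 - r := by
    rw [← ofReal_one, ← ofReal_sub, norm_real, Real.norm_eq_abs, abs_of_neg (by linarith)]
    ring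
  rw [e3, norm_neg, norm_mul, norm_mul, hu, one_mul, e4]
  have e5 : m ≤ ‖deriv (C.Ψ k) u‖ := hmin (by simpa using hu)
  nlinarith

/-- The rotation index of the boundary curves (Umlaufsatz). -/
lemma wn_tangent (k : Fin n) {ρ : ℝ} (h1 : 1 - C.δ < ρ) (h2 : ρ ≤ 1) :
    wn (fun u => u * deriv (C.Ψ k) u) ρ = -1 := by
  have hδ := C.δ_pos
  have hδ' := C.δ_lt
  have g1 : 1 - C.δ < 1 := by linarith
  have g2 : 1 < 1 + C.δ := by linarith
  rw [← wn_annulus (pos_of h1) h2 fun u e1 e2 =>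
    good_tangent k (ρ := ‖u‖) (by linarith) (by linarith) u (by simp)]
  obtain ⟨r, hr1, hr2, hr⟩ := exists_close (C := C) k
  have hr0 := pos_of hr1
  have hrc : (r : ℂ) - 1 ≠ 0 := by
    rw [sub_ne_zero]
    exact_mod_cast hr2.ne
  obtain ⟨hg, e1⟩ := wn_const_mul zero_le_one (good_tangent k g1 g2) hrc
  have hnr : ∀ u : ℂ, ‖u‖ = 1 → ‖(r : ℂ) * u‖ = r := fun u hu => by
    rw [norm_mul, hu, mul_one, norm_real, Real.norm_eq_abs, abs_of_pos hr0]
  obtain ⟨hg2, e2⟩ := wn_eq_of_close zero_le_one hg (g := fun u => C.Ψ k (r * u) - C.Ψ k u) (by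
    intro u hu
    have hu' : ‖u‖ = 1 := by simpa using hu
    refine ⟨AnalyticAt.sub ?_ (an_sphere k g1 g2 u hu), hr u hu'⟩
    exact (C.an k (r * u) (by rw [hnr u hu']; exact hr1)
      (by rw [hnr u hu']; linarith)).comp_of_eq (by fun_prop) rfl)
  rw [← e1, ← e2]
  have hne : ∀ u v : ℂ, ‖u‖ = r → ‖v‖ = 1 → C.Ψ k u ≠ C.Ψ k v := fun u v hu hv he => by
    have := (C.inj k k u v (by linarith) (by linarith) (by linarith) (by linarith) he).2
    subst this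
    linarith
  have hc1 := circle_continuous hr0.le fun u hu =>
    (an_sphere k hr1 (by linarith) u hu).continuousAt
  have hc2 := circle_continuous zero_le_one fun u hu => (an_sphere k g1 g2 u hu).continuousAt
  have hsc : IsSimplyConnected (univ : Set (ℝ × ℝ)) := by
    have := (convex_univ (𝕜 := ℝ) (E := ℝ × ℝ)).contractibleSpace univ_nonempty
    exact SimplyConnectedSpace.ofContractible _
  obtain ⟨Λ, hΛ, hΛe⟩ := exists_continuousOn_eqOn_exp_comp (X := ℝ × ℝ) (U := univ)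
    hsc isOpen_univ
    (g := fun p => C.Ψ k (circleMap 0 r p.1) - C.Ψ k (circleMap 0 1 p.2))
    ((hc1.comp continuous_fst).sub (hc2.comp continuous_snd)).continuousOn (by
      rintro ⟨p, -, hp⟩
      exact hne _ _ (by simp [abs_of_pos hr0]) (by simp) (sub_eq_zero.1 hp))
  have hΛc : Continuous Λ := continuousOn_univ.1 hΛ
  have hΛe' : ∀ s t, exp (Λ (s, t)) = C.Ψ k (circleMap 0 r s) - C.Ψ k (circleMap 0 1 t) :=
    fun s t => hΛe (mem_univ (s, t))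
  have f1 := wn_eq_of_lift zero_le_one hg2 (l := fun t => Λ (t, t)) (by fun_prop) fun t => by
    rw [hΛe']
    simp [circleMap]
  have f2 := wn_eq_of_lift hr0.le (good_ind k hr1 (by linarith) (a := C.Ψ k 1)
    fun u hu => hne u 1 hu norm_one) (l := fun t => Λ (t, 0)) (by fun_prop) fun t => by
    rw [hΛe']
    simp [circleMap]
  have hnr' : ‖(r : ℂ)‖ = r := by simpa using hnr 1 norm_one
  obtain ⟨hg3, e3⟩ := wn_const_mul zero_le_one (good_ind k g1 g2 (a := C.Ψ k r)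
    fun u hu => (hne r u hnr' hu).symm) (c := -1) (by norm_num)
  have f3 := wn_eq_of_lift zero_le_one hg3 (l := fun t => Λ (2 * π, t)) (by fun_prop) fun t => by
    rw [hΛe']
    simp [circleMap]
  have i2 : C.ind k r (C.Ψ k 1) = -1 := by
    simpa using ind_outer k k hr1 hr2 (v := 1) (by simpa using hr2) (by simpa using hδ)
  have i3 : C.ind k 1 (C.Ψ k r) = 0 := ind_one k (C.inside k r (by linarith) (by linarith))
  rw [ind, f2] at i2
  rw [ind, ← e3, f3] at i3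
  rw [f1]
  linear_combination i2 + i3

end Collar

end Pool.Agent.MP_476a06_an
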