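import Pool.Agent.MP_476a06_an.Cauchy

/-! Zero counting for functions that are real, as half order differentials, on the boundary. -/

set_option autoImplicit false

open Complex Metric Set Filter Topology MeasureTheory
open scoped Real Interval ComplexConjugate

namespace Pool.Agent.MP_476a06_an

lemma exists_unit {x y : ℂ} (h : ‖x‖ = ‖y‖) : ∃ r : ℂ, r ≠ 0 ∧ r * y + conj r * x = 0 := by
  by_cases hy : y = 0
  · have hx : x = 0 := by simpa [hy] using h
    exact ⟨1, one_ne_zero, by simp [hx, hy]⟩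
  by_cases hxy : x = y
  · exact ⟨I, I_ne_zero, by simp [hxy]⟩
  · have hc : conj x * x = conj y * y := by
      rw [conj_mul', conj_mul', h]
    have hy' : conj y ≠ 0 := by simpa using hy
    refine ⟨1 - x / y, ?_, ?_⟩
    · rw [sub_ne_zero, ne_comm, Ne, div_eq_one_iff_eq hy]
      exact hxy
    · simp only [map_sub, map_one, map_div₀]
      field_simp
      linear_combination -hc

lemma norm_lt_of_ne {S : Set ℂ} (hS : IsPreconnected S) {F G : ℂ → ℂ} (hF : ContinuousOn F S)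
    (hG : ContinuousOn G S) (hne : ∀ t ∈ S, ‖F t‖ ≠ ‖G t‖) {a : ℂ} (ha : a ∈ S)
    (hlt : ‖F a‖ < ‖G a‖) : ∀ t ∈ S, ‖F t‖ < ‖G t‖ := by
  intro t ht
  by_contra h
  obtain ⟨x, hx, he⟩ := hS.intermediate_value₂ ha ht hF.norm hG.norm hlt.le (not_lt.1 h)
  exact hne x hx he

namespace Collar

variable {Ω : Set ℂ} {n : ℕ} {C : Collar Ω n}

/-- The local inequality at one boundary curve. -/
lemma wn_real_le (k : Fin n) {a ρ : ℝ} (h0 : 1 - C.δ < a) (h1 : a < ρ) (h2 : ρ < 1) {G : ℂ → ℂ}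
    (hc : ContinuousOn G {u | ρ ≤ ‖u‖ ∧ ‖u‖ ≤ 1})
    (hd : ∀ u, a < ‖u‖ → ‖u‖ < 1 → AnalyticAt ℂ G u)
    (hreal : ∀ u, ‖u‖ = 1 → G u * (u * deriv (C.Ψ k) u) = conj (G u) * ‖deriv (C.Ψ k) u‖)
    (hne : ∀ u, ‖u‖ = ρ → G u ≠ 0) : (wn G ρ).re ≤ 0 := by
  have hδ := C.δ_pos
  have hρ1 : 1 - C.δ < ρ := h0.trans h1
  have hρ := pos_of hρ1
  have hG : Good G ρ := fun u hu => by
    have hu' : ‖u‖ = ρ := by simpa using hu
    exact ⟨hd u (hu' ▸ h1) (hu' ▸ h2), hne u hu'⟩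
  have hT := good_tangent k hρ1 (by linarith)
  set q : ℂ → ℂ := fun u => G u * G u * (u * deriv (C.Ψ k) u) with hq
  have hqG : Good q ρ := (hG.mul hG).mul hT
  have hqw : wn q ρ = wn G ρ + wn G ρ + -1 := by
    rw [hq, wn_mul hρ.le (hG.mul hG) hT, wn_mul hρ.le hG hG, wn_tangent k hρ1 h2.le]
  obtain ⟨m, hm, hm'⟩ := (isCompact_sphere (0 : ℂ) ρ).exists_forall_le' (f := fun u => ‖q u‖) (a := 0)
    (fun u hu => (hqG u hu).1.continuousAt.norm.continuousWithinAt)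
    (fun u hu => norm_pos_iff.2 (hqG u hu).2)
  have hqa : ∀ u, a < ‖u‖ → ‖u‖ < 1 → AnalyticAt ℂ (fun u => q u + ((m / 2 : ℝ) : ℂ)) u :=
    fun u e1 e2 => (((hd u e1 e2).mul (hd u e1 e2)).mul
      (analyticAt_id.mul (C.an k u (by linarith) (by linarith)).deriv)).add analyticAt_const
  obtain ⟨g1, e1⟩ := wn_eq_of_close hρ.le hqG (g := fun u => q u + ((m / 2 : ℝ) : ℂ)) fun u hu => by
    have hu' : ‖u‖ = ρ := by simpa using hu
    refine ⟨hqa u (hu' ▸ h1) (hu' ▸ h2), ?_⟩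
    rw [add_sub_cancel_left, norm_real, Real.norm_eq_abs, abs_of_pos (half_pos hm)]
    linarith [hm' u hu]
  obtain ⟨ε, hε, hε'⟩ := exists_annulus_of_nhds (ρ := 1)
    (P := fun u => u ∈ {u : ℂ | ρ ≤ ‖u‖ ∧ ‖u‖ ≤ 1} → 0 < (q u + ((m / 2 : ℝ) : ℂ)).re) one_pos (by
      intro v hv
      have hv' : v ∈ {u : ℂ | ρ ≤ ‖u‖ ∧ ‖u‖ ≤ 1} := ⟨by linarith, hv.le⟩
      have c1 : ContinuousWithinAt (fun u => (q u + ((m / 2 : ℝ) : ℂ)).re)
          {u : ℂ | ρ ≤ ‖u‖ ∧ ‖u‖ ≤ 1} v := by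
        refine continuous_re.continuousAt.comp_continuousWithinAt ?_
        exact (((hc v hv').mul (hc v hv')).mul (continuousAt_id.mul
          (C.an k v (by linarith) (by linarith)).deriv.continuousAt).continuousWithinAt).add
          continuousWithinAt_const
      have c2 : 0 < (q v + ((m / 2 : ℝ) : ℂ)).re := by
        have : q v = ((‖G v‖ ^ 2 * ‖deriv (C.Ψ k) v‖ : ℝ) : ℂ) := by
          simp only [hq]
          rw [mul_assoc, hreal v hv, ← mul_assoc, mul_conj']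
          push_cast
          ring
        rw [this, ← ofReal_add, ofReal_re]
        positivity
      exact eventually_nhdsWithin_iff.1 (c1.eventually (lt_mem_nhds c2)))
  set ρ₀ := max ρ (1 - ε / 2) with hρ₀
  have r1 : ρ ≤ ρ₀ := le_max_left _ _
  have r2 : 1 - ε / 2 ≤ ρ₀ := le_max_right _ _
  have r3 : ρ₀ < 1 := max_lt h2 (by linarith)
  have hs : ∀ u ∈ sphere (0 : ℂ) ρ₀, AnalyticAt ℂ (fun u => q u + ((m / 2 : ℝ) : ℂ)) u ∧
      q u + ((m / 2 : ℝ) : ℂ) ∈ slitPlane := fun u hu => by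
    have hu' : ‖u‖ = ρ₀ := by simpa using hu
    exact ⟨hqa u (by linarith) (by linarith),
      Or.inl (hε' u (by linarith) (by linarith) ⟨by linarith, by linarith⟩)⟩
  have e2 := wn_slit (by linarith : 0 ≤ ρ₀) hs
  have e3 := wn_annulus_le (pos_of h0).le h1 r1 r3
    (fun u hu => (hqa u hu.1 hu.2).differentiableAt.differentiableWithinAt)
    (fun u hu => (g1 u hu).2) (fun u hu => slitPlane_ne_zero (hs u hu).2)
  rw [e2, e1, hqw] at e3
  obtain ⟨j, hj⟩ := hG.exists_int hρ.le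
  rw [hj] at e3 ⊢
  simp only [add_re, intCast_re, neg_re, one_re, zero_re] at e3 ⊢
  have : j + j + -1 ≤ 0 := by exact_mod_cast e3
  have : j ≤ 0 := by omega
  exact_mod_cast this

lemma exists_level {f : ℂ → ℂ} (hf : DifferentiableOn ℂ f Ω) (hne : ∃ x ∈ Ω, f x ≠ 0) {a : ℝ}
    (h0 : 1 - C.δ < a) (h1 : a < 1) :
    ∃ ρ, a < ρ ∧ ρ < 1 ∧ ∀ k u, ‖u‖ = ρ → f (C.Ψ k u) ≠ 0 := by
  have hδ := C.δ_pos
  set x := (2 * a + 1) / 3 with hx
  set y := (a + 2) / 3 with hy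
  have hfin : ∀ k, {u : ℂ | (x ≤ ‖u‖ ∧ ‖u‖ ≤ y) ∧ f (C.Ψ k u) = 0}.Finite := by
    intro k
    have hK : IsCompact (C.Ψ k '' {u : ℂ | x ≤ ‖u‖ ∧ ‖u‖ ≤ y}) :=
      (isCompact_annulus x y).image_of_continuousOn fun u hu =>
        (C.an k u (by linarith [hu.1]) (by linarith [hu.2])).continuousAt.continuousWithinAt
    have hZ := finite_zeros C.isOpen C.conn hK (by
      rintro _ ⟨u, hu, rfl⟩
      exact C.inside k u (by linarith [hu.1]) (by linarith [hu.2])) hf hne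
    refine Set.Finite.of_finite_image (f := C.Ψ k) (hZ.subset ?_) ?_
    · rintro _ ⟨u, hu, rfl⟩
      exact ⟨⟨u, hu.1, rfl⟩, hu.2⟩
    · intro u hu v hv he
      exact (C.inj k k u v (by linarith [hu.1.1]) (by linarith [hu.1.2]) (by linarith [hv.1.1])
        (by linarith [hv.1.2]) he).2
  have hfin' := Set.finite_iUnion fun k => (hfin k).image norm
  obtain ⟨ρ, hρ, hρ'⟩ := (Set.Icc_infinite (show x < y by linarith)).exists_notMem_finite hfin'
  refine ⟨ρ, by linarith [hρ.1], by linarith [hρ.2], fun k u hu he => hρ' ?_⟩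
  exact mem_iUnion.2 ⟨k, u, ⟨by rw [hu]; exact hρ, he⟩, hu⟩

/-- A real section with two poles cannot have two zeros. -/
theorem key {c : ℂ} (hc : c ∉ Ω) {a₁ a₂ b₁ b₂ : ℂ} (ha₁ : a₁ ∈ Ω) (ha₂ : a₂ ∈ Ω) (hb₁ : b₁ ∈ Ω)
    (hb₂ : b₂ ∈ Ω) {H h : ℂ → ℂ} {r s : ℂ} (hH : DifferentiableOn ℂ H Ω)
    (hHc : ContinuousOn H (closure Ω)) (hH0 : Tendsto H (cocompact ℂ) (𝓝 0))
    (hreal : ∀ k u, ‖u‖ = 1 →
      (H (C.Ψ k u) + r * (C.Ψ k u - a₁)⁻¹ + s * (C.Ψ k u - a₂)⁻¹) * (u * deriv (C.Ψ k) u) =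
        conj (H (C.Ψ k u) + r * (C.Ψ k u - a₁)⁻¹ + s * (C.Ψ k u - a₂)⁻¹) * ‖deriv (C.Ψ k) u‖)
    (hh : DifferentiableOn ℂ h Ω)
    (he : ∀ t, h t * (t - b₁) * (t - b₂) = (t - a₁) * (t - a₂) * H t + r * (t - a₂) + s * (t - a₁)) :
    ∀ x ∈ Ω, h x = 0 := by
  by_contra hne
  push Not at hne
  have hδ := C.δ_pos
  set g : ℂ → ℂ := fun t => H t + r * (t - a₁)⁻¹ + s * (t - a₂)⁻¹ with hg
  have he' : ∀ t, t ≠ a₁ → t ≠ a₂ → h t * (t - b₁) * (t - b₂) = g t * (t - a₁) * (t - a₂) := by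
    intro t e1 e2
    have := sub_ne_zero.2 e1
    have := sub_ne_zero.2 e2
    rw [he t, hg]
    field_simp
  have hev : ∀ᶠ ρ in 𝓝[<] (1 : ℝ), 1 - C.δ < ρ :=
    nhdsWithin_le_nhds (eventually_gt_nhds (by linarith))
  obtain ⟨a, ⟨⟨o1, o2⟩, o3, o4⟩, h0, h1⟩ := ((((eventually_off (C := C) ha₁).and
    (eventually_off (C := C) ha₂)).and ((eventually_off (C := C) hb₁).and
    (eventually_off (C := C) hb₂))).and (hev.and self_mem_nhdsWithin)).exists
  have h1' : a < 1 := h1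
  obtain ⟨ρ, r1, r2, hρ0⟩ := exists_level hh hne h0 h1'
  have r0 : 1 - C.δ < ρ := h0.trans r1
  have hρ := pos_of r0
  have hg0 : Tendsto g (cocompact ℂ) (𝓝 0) := by
    have := (hH0.add ((tendsto_inv_sub a₁).const_mul r)).add ((tendsto_inv_sub a₂).const_mul s)
    simpa using this
  have hh0 : Tendsto h (cocompact ℂ) (𝓝 0) := by
    have := (hg0.mul (tendsto_ratio b₁ a₁)).mul (tendsto_ratio b₂ a₂)
    rw [zero_mul, zero_mul] at this
    refine this.congr' ?_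
    filter_upwards [eventually_ne_cocompact a₁, eventually_ne_cocompact a₂,
      eventually_ne_cocompact b₁, eventually_ne_cocompact b₂] with t e1 e2 e3 e4
    have := sub_ne_zero.2 e3
    have := sub_ne_zero.2 e4
    have e5 := he' t e1 e2
    field_simp
    linear_combination -e5
  have hA := one_le_sum_wn r0 r2 hc hh hh0 hne hρ0
  have hB : ∀ k, (wn (fun u => h (C.Ψ k u)) ρ).re ≤ 0 := by
    intro k
    have hga : ∀ u, a < ‖u‖ → ‖u‖ < 1 → AnalyticAt ℂ (fun u => g (C.Ψ k u)) u := by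
      intro u e1 e2
      have an := C.an k u (by linarith) (by linarith)
      exact (((hH.analyticAt (C.isOpen.mem_nhds (C.inside k u (by linarith) e2))).comp an).add
        (analyticAt_const.mul ((an.sub analyticAt_const).inv
          (sub_ne_zero.2 (o1 k u e1.le e2.le))))).add
        (analyticAt_const.mul ((an.sub analyticAt_const).inv (sub_ne_zero.2 (o2 k u e1.le e2.le))))
    have off : ∀ {x : ℂ}, (∀ k u, a ≤ ‖u‖ → ‖u‖ ≤ 1 → C.Ψ k u ≠ x) →
        ∀ u, ‖u‖ = ρ → C.Ψ k u ≠ x := fun o u hu => o k u (by linarith) (by linarith)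
    have hgne : ∀ u, ‖u‖ = ρ → g (C.Ψ k u) ≠ 0 := by
      intro u hu e
      have := he' _ (off o1 u hu) (off o2 u hu)
      rw [e, zero_mul, zero_mul] at this
      exact mul_ne_zero (mul_ne_zero (hρ0 k u hu) (sub_ne_zero.2 (off o3 u hu)))
        (sub_ne_zero.2 (off o4 u hu)) this
    have hgG : Good (fun u => g (C.Ψ k u)) ρ := fun u hu => by
      have hu' : ‖u‖ = ρ := by simpa using hu
      exact ⟨hga u (by linarith) (by linarith), hgne u hu'⟩
    have hhG := good_comp r0 r2 hh k (hρ0 k)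
    have gi : ∀ {x : ℂ}, (∀ k u, a ≤ ‖u‖ → ‖u‖ ≤ 1 → C.Ψ k u ≠ x) →
        Good (fun u => C.Ψ k u - x) ρ := fun o => good_ind k r0 (by linarith) (off o)
    have zi : ∀ {x : ℂ}, x ∈ Ω → (∀ k u, a ≤ ‖u‖ → ‖u‖ ≤ 1 → C.Ψ k u ≠ x) →
        wn (fun u => C.Ψ k u - x) ρ = 0 := fun hx o =>
      ind_zero k r0 r2.le hx fun u e1 e2 => o k u (by linarith) e2
    have e1 : wn (fun u => h (C.Ψ k u) * (C.Ψ k u - b₁) * (C.Ψ k u - b₂)) ρ =
        wn (fun u => g (C.Ψ k u) * (C.Ψ k u - a₁) * (C.Ψ k u - a₂)) ρ := by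
      refine wn_congr hρ.le fun u hu => ?_
      have hu' : ‖u‖ = ρ := by simpa using hu
      have cc := (C.an k u (by linarith) (by linarith)).continuousAt
      filter_upwards [cc.eventually_ne (off o1 u hu'), cc.eventually_ne (off o2 u hu')] with v e1 e2
      exact he' _ e1 e2
    rw [wn_mul hρ.le (hhG.mul (gi o3)) (gi o4), wn_mul hρ.le hhG (gi o3),
      wn_mul hρ.le (hgG.mul (gi o1)) (gi o2), wn_mul hρ.le hgG (gi o1),
      zi ha₁ o1, zi ha₂ o2, zi hb₁ o3, zi hb₂ o4] at e1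
    simp only [add_zero] at e1
    rw [e1]
    refine wn_real_le k h0 r1 r2 ?_ hga (hreal k) hgne
    intro u hu
    have an := (C.an k u (by linarith [hu.1]) (by linarith [hu.2])).continuousAt
    refine ContinuousWithinAt.add (ContinuousWithinAt.add ?_ ?_) ?_
    · exact (hHc _ (mem_closure_of k (by linarith [hu.1]) hu.2)).comp an.continuousWithinAt
        fun v hv => mem_closure_of k (by linarith [hv.1]) hv.2
    · exact (continuousAt_const.mul ((an.sub continuousAt_const).inv₀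
        (sub_ne_zero.2 (o1 k u (by linarith [hu.1]) hu.2)))).continuousWithinAt
    · exact (continuousAt_const.mul ((an.sub continuousAt_const).inv₀
        (sub_ne_zero.2 (o2 k u (by linarith [hu.1]) hu.2)))).continuousWithinAt
  rw [re_sum] at hA
  linarith [Finset.sum_nonpos fun k (_ : k ∈ Finset.univ) => hB k]

end Collar

end Pool.Agent.MP_476a06_an
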