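import Pool.Agent.MP_476a06_an.Key

/-! The second variation of analytic capacity is nonpositive. -/

set_option autoImplicit false

open Complex Metric Set Filter Topology MeasureTheory
open scoped Real Interval ComplexConjugate

namespace Pool.Agent.MP_476a06_an

namespace Collar

variable {Ω : Set ℂ} {n : ℕ}

/-- The kernel functions at the point `z`: `K` is the Szego kernel, `l` the regular part of the
adjoint kernel. -/
structure Kern (C : Collar Ω n) (z : ℂ) (K l : ℂ → ℂ) : Prop where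
  mem : z ∈ Ω
  dK : DifferentiableOn ℂ K Ω
  cK : ContinuousOn K (closure Ω)
  tK : Tendsto K (cocompact ℂ) (𝓝 0)
  dl : DifferentiableOn ℂ l Ω
  cl : ContinuousOn l (closure Ω)
  tl : Tendsto l (cocompact ℂ) (𝓝 0)
  bd : ∀ k u, ‖u‖ = 1 → (l (C.Ψ k u) + (C.Ψ k u - z)⁻¹) * (u * deriv (C.Ψ k) u) =
    conj (K (C.Ψ k u)) * ‖deriv (C.Ψ k) u‖

variable {C : Collar Ω n}

lemma swap_bd (k : Fin n) {u : ℂ} (hu : ‖u‖ = 1) {x y : ℂ}
    (h : x * (u * deriv (C.Ψ k) u) = conj y * ‖deriv (C.Ψ k) u‖) :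
    y * (u * deriv (C.Ψ k) u) = conj x * ‖deriv (C.Ψ k) u‖ ∧ ‖x‖ = ‖y‖ := by
  have hδ := C.δ_pos
  have hd := C.dne k u (by linarith) (by linarith)
  have hN : ((‖deriv (C.Ψ k) u‖ : ℝ) : ℂ) ≠ 0 := by exact_mod_cast norm_ne_zero_iff.2 hd
  constructor
  · have h1 := congrArg conj h
    simp only [map_mul, conj_conj, conj_ofReal] at h1
    have h2 : conj u * u = 1 := by rw [conj_mul', hu]; simp
    have h3 := conj_mul' (deriv (C.Ψ k) u)
    refine mul_right_cancel₀ hN ?_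
    linear_combination (-(u * deriv (C.Ψ k) u)) * h1 +
      conj x * (conj (deriv (C.Ψ k) u) * deriv (C.Ψ k) u) * h2 + conj x * h3
  · have h1 := congrArg norm h
    simp only [norm_mul, hu, one_mul, RCLike.norm_conj, norm_real, norm_norm] at h1
    exact mul_right_cancel₀ (norm_ne_zero_iff.2 hd) h1

lemma Kern.hat_bound {z : ℂ} {K l : ℂ → ℂ} (h : C.Kern z K l) :
    ∃ M : ℝ, ∀ᶠ t in cocompact ℂ, ‖(t - z) * l t + 1‖ ≤ M := by
  obtain ⟨M, hM⟩ := C.decay h.dl h.tl
  refine ⟨2 * |M| + 1, ?_⟩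
  filter_upwards [hM, (tendsto_norm_cocompact_atTop (E := ℂ)).eventually_gt_atTop ‖z‖] with t e1 e2
  have hpos : 0 < ‖t‖ := (norm_nonneg z).trans_lt e2
  have e3 : ‖t - z‖ ≤ 2 * ‖t‖ := by linarith [norm_sub_le t z]
  have e4 : ‖l t‖ ≤ |M| / ‖t‖ := e1.trans (by gcongr; exact le_abs_self M)
  calc ‖(t - z) * l t + 1‖ ≤ ‖t - z‖ * ‖l t‖ + 1 := by simpa using norm_add_le ((t - z) * l t) 1
    _ ≤ 2 * ‖t‖ * (|M| / ‖t‖) + 1 := by gcongr
    _ = 2 * |M| + 1 := by field_simp

lemma Kern.tL {z : ℂ} {K l : ℂ → ℂ} (h : C.Kern z K l) :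
    Tendsto (fun t => l t + (t - z)⁻¹) (cocompact ℂ) (𝓝 0) := by
  simpa using h.tl.add (tendsto_inv_sub z)

/-- The Schwarz lemma on `Ω`, with the Szego kernel as the extremal constant. -/
lemma Kern.schwarz {z : ℂ} {K l : ℂ → ℂ} (h : C.Kern z K l) {ψ : ℂ → ℂ}
    (hψ : DifferentiableOn ℂ ψ Ω) (hb : ∀ t ∈ Ω, ‖(t - z) * ψ t‖ ≤ 1) : ‖ψ z‖ ≤ (K z).re := by
  have hδ := C.δ_pos
  obtain ⟨M, hM⟩ := h.hat_bound
  have hev : ∀ᶠ ρ in 𝓝[<] (1 : ℝ), 1 - C.δ < ρ :=
    nhdsWithin_le_nhds (eventually_gt_nhds (by linarith))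
  obtain ⟨a, o, h0, h1⟩ := ((eventually_off (C := C) h.mem).and (hev.and self_mem_nhdsWithin)).exists
  have h1' : a < 1 := h1
  have ha := pos_of h0
  have hhat : DifferentiableOn ℂ (fun t => (t - z) * l t + 1) Ω :=
    ((differentiableOn_id.sub_const z).mul h.dl).add_const 1
  have hhe : ∀ t, t ≠ z → (t - z) * l t + 1 = (t - z) * (l t + (t - z)⁻¹) := fun t ht => by
    have := sub_ne_zero.2 ht
    field_simp
  have hoff : ∀ ρ, a ≤ ρ → ρ ≤ 1 → C.Off ρ z := fun ρ e1 e2 k u hu => o k u (by linarith) (by linarith)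
  have htot : ∀ ρ, a ≤ ρ → ρ ≤ 1 → C.tot ρ z = 0 := fun ρ e1 e2 =>
    Finset.sum_eq_zero fun k _ => ind_zero k (by linarith) e2 h.mem fun u g1 g2 => o k u (by linarith) g2
  have hLc : ContinuousOn (fun t => l t + (t - z)⁻¹) (closure Ω \ {z}) :=
    (h.cl.mono sdiff_subset).add ((continuousOn_id.sub continuousOn_const).inv₀
      fun t ht => sub_ne_zero.2 ht.2)
  have hS : ∀ k u, a ≤ ‖u‖ → ‖u‖ ≤ 1 → C.Ψ k u ∈ closure Ω \ {z} := fun k u e1 e2 =>
    ⟨mem_closure_of k (by linarith) e2, o k u e1 e2⟩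
  set T : Fin n → ℂ → ℝ := fun k u =>
    ‖u‖ * (‖l (C.Ψ k u) + (C.Ψ k u - z)⁻¹‖ ^ 2 * ‖deriv (C.Ψ k) u‖) with hT
  have hTc : ∀ k, ContinuousOn (T k) {u | a ≤ ‖u‖ ∧ ‖u‖ ≤ 1} := by
    intro k
    have an : ∀ u ∈ {u : ℂ | a ≤ ‖u‖ ∧ ‖u‖ ≤ 1}, AnalyticAt ℂ (C.Ψ k) u := fun u hu =>
      C.an k u (by linarith [hu.1]) (by linarith [hu.2])
    refine continuous_norm.continuousOn.mul (ContinuousOn.mul (ContinuousOn.pow ?_ 2) ?_)
    · exact (hLc.comp (fun u hu => (an u hu).continuousAt.continuousWithinAt)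
        fun u hu => hS k u hu.1 hu.2).norm
    · exact fun u hu => (an u hu).deriv.continuousAt.norm.continuousWithinAt
  set cl : ℝ → ℝ := fun ρ => max a (min ρ 1) with hcl
  have hcl1 : ∀ ρ, a ≤ cl ρ ∧ cl ρ ≤ 1 := fun ρ =>
    ⟨le_max_left _ _, max_le h1'.le (min_le_right _ _)⟩
  have hcl2 : ∀ ρ, a ≤ ρ → ρ ≤ 1 → cl ρ = ρ := fun ρ e1 e2 => by
    simp [hcl, e1, e2]
  have hmem : ∀ ρ θ, a ≤ ρ → ρ ≤ 1 → circleMap 0 ρ θ ∈ {u : ℂ | a ≤ ‖u‖ ∧ ‖u‖ ≤ 1} :=
    fun ρ θ e1 e2 => by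
      simp only [mem_ofPred_eq, norm_circleMap_zero, abs_of_pos (ha.trans_le e1)]
      exact ⟨e1, e2⟩
  set E : ℝ → ℝ := fun ρ => ∑ k, ∫ θ in (0 : ℝ)..2 * π, T k (circleMap 0 (cl ρ) θ) with hE
  have hTc' : ∀ k, Continuous fun p : ℝ × ℝ => T k (circleMap 0 (cl p.1) p.2) := fun k =>
    (hTc k).comp_continuous (by simp only [circleMap, hcl]; fun_prop)
      fun p => hmem _ _ (hcl1 _).1 (hcl1 _).2
  have hEc : Continuous E := continuous_finsetSum _ fun k _ =>
    intervalIntegral.continuous_parametric_intervalIntegral_of_continuous' (hTc' k) _ _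
  have hf : DifferentiableOn ℂ (fun t => ψ t * ((t - z) * l t + 1) ^ 2) Ω := hψ.mul (hhat.pow 2)
  have hf0 : Tendsto (fun t => ψ t * ((t - z) * l t + 1) ^ 2) (cocompact ℂ) (𝓝 0) := by
    refine squeeze_zero_norm' (a := fun t => M * ‖l t + (t - z)⁻¹‖) ?_
      (by simpa using h.tL.norm.const_mul M)
    filter_upwards [hM, C.eventually_mem, eventually_ne_cocompact z] with t e1 e2 e3
    have : ψ t * ((t - z) * l t + 1) ^ 2 =
        ((t - z) * ψ t) * (((t - z) * l t + 1) * (l t + (t - z)⁻¹)) := by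
      rw [sq]
      nth_rewrite 2 [hhe t e3]
      ring
    rw [this, norm_mul ((t - z) * ψ t), norm_mul ((t - z) * l t + 1)]
    calc _ ≤ 1 * (M * ‖l t + (t - z)⁻¹‖) := by
          have := hb t e2
          gcongr
      _ = _ := one_mul _
  have hle : ∀ ρ, a ≤ ρ → ρ < 1 → 2 * π * ‖ψ z‖ ≤ E ρ := by
    intro ρ e1 e2
    have hρ := ha.trans_le e1
    have c1 := cauchy_Ω (by linarith) e2 hf hf0 h.mem (hoff ρ e1 e2.le) (htot ρ e1 e2.le)
    have c2 : ‖(2 * π * I : ℂ)‖ = 2 * π := by simp [abs_of_pos Real.pi_pos]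
    have c3 := congrArg norm c1
    simp only [sub_self, zero_mul, zero_add, one_pow, mul_one] at c3
    rw [norm_mul, c2] at c3
    rw [← c3, J]
    refine (norm_sum_le _ _).trans (Finset.sum_le_sum fun k _ => ?_)
    rw [hcl2 ρ e1 e2.le]
    refine intervalIntegral.norm_integral_le_of_norm_le (by positivity)
      (Eventually.of_forall fun θ _ => ?_) ?_
    · have hn : ‖circleMap 0 ρ θ‖ = ρ := by rw [norm_circleMap_zero, abs_of_pos hρ]
      have hz := hoff ρ e1 e2.le k _ hn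
      have hb' := hb _ (C.inside k (circleMap 0 ρ θ) (by linarith) (by linarith))
      set t := C.Ψ k (circleMap 0 ρ θ) with ht
      have e3 : ψ t * ((t - z) * l t + 1) ^ 2 / (t - z) = ((t - z) * ψ t) * (l t + (t - z)⁻¹) ^ 2 := by
        have := sub_ne_zero.2 hz
        rw [hhe t hz]
        field_simp
      simp only [deriv_circleMap, smul_eq_mul, hT, ← ht]
      rw [e3, norm_mul, norm_mul, norm_mul, norm_mul, norm_I, mul_one, norm_pow]
      gcongr
      exact mul_le_of_le_one_left (by positivity) hb'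
    · have := (hTc' k).comp (Continuous.prodMk_right ρ)
      simp only [Function.comp_def, hcl2 ρ e1 e2.le] at this
      exact this.intervalIntegrable _ _
  have hle1 : 2 * π * ‖ψ z‖ ≤ E 1 := by
    refine ge_of_tendsto ((hEc.tendsto 1).mono_left (nhdsWithin_le_nhds (s := Iio 1))) ?_
    have hev' : ∀ᶠ ρ in 𝓝[<] (1 : ℝ), a < ρ := nhdsWithin_le_nhds (eventually_gt_nhds h1')
    filter_upwards [hev', self_mem_nhdsWithin] with ρ e1 e2
    exact hle ρ e1.le e2
  have hg : DifferentiableOn ℂ (fun t => K t * ((t - z) * l t + 1)) Ω := h.dK.mul hhat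
  have hg0 : Tendsto (fun t => K t * ((t - z) * l t + 1)) (cocompact ℂ) (𝓝 0) := by
    refine squeeze_zero_norm' (a := fun t => ‖K t‖ * M) ?_ (by simpa using h.tK.norm.mul_const M)
    filter_upwards [hM] with t e1
    rw [norm_mul]
    gcongr
  have c1 := cauchy_Ω h0 h1' hg hg0 h.mem (hoff a le_rfl h1'.le) (htot a le_rfl h1'.le)
  simp only [sub_self, zero_mul, zero_add, mul_one] at c1
  have c2 : C.J a (fun t => K t * ((t - z) * l t + 1) / (t - z)) =
      C.J a (fun t => K t * (l t + (t - z)⁻¹)) := J_congr ha.le fun k u hu => by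
    have hz := hoff a le_rfl h1'.le k u hu
    have := sub_ne_zero.2 hz
    simp only [hhe _ hz]
    field_simp
  have c3 : C.J 1 (fun t => K t * (l t + (t - z)⁻¹)) = C.J a (fun t => K t * (l t + (t - z)⁻¹)) := by
    refine J_shift h0 h1'.le (by linarith) ((h.cK.mono sdiff_subset).mul hLc) hS fun k u e1 e2 => ?_
    have hm := C.isOpen.mem_nhds (C.inside k u (by linarith) e2)
    exact (h.dK.differentiableAt hm).mul ((h.dl.differentiableAt hm).add
      ((differentiableAt_id.sub_const z).inv (sub_ne_zero.2 (o k u e1.le e2.le))))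
  have c4 : C.J 1 (fun t => K t * (l t + (t - z)⁻¹)) = I * (E 1 : ℂ) := by
    simp only [J, hE, hcl2 1 h1'.le le_rfl, ofReal_sum, Finset.mul_sum]
    refine Finset.sum_congr rfl fun k _ => ?_
    rw [← intervalIntegral.integral_ofReal, ← intervalIntegral.integral_const_mul, circleIntegral]
    refine intervalIntegral.integral_congr fun θ _ => ?_
    have hn : ‖circleMap 0 1 θ‖ = 1 := by simp
    have b1 := h.bd k _ hn
    have b2 := (swap_bd k hn b1).2
    simp only [deriv_circleMap, smul_eq_mul, hT, hn, one_mul, b2]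
    push_cast
    have b3 := mul_conj' (K (C.Ψ k (circleMap 0 1 θ)))
    linear_combination I * K (C.Ψ k (circleMap 0 1 θ)) * b1 +
      I * (‖deriv (C.Ψ k) (circleMap 0 1 θ)‖ : ℂ) * b3
  have c5 : (2 * π : ℂ) * K z = E 1 := by
    refine mul_left_cancel₀ I_ne_zero ?_
    rw [← c4, c3, ← c2, c1]
    ring
  have c6 : 2 * π * (K z).re = E 1 := by
    have := congrArg re c5
    simpa using this
  rw [← c6] at hle1
  exact le_of_mul_le_mul_left hle1 (by positivity)

lemma Kern.norm_lt {c : ℂ} (hc : c ∉ Ω) {ζ : ℂ} {K l : ℂ → ℂ} (h : C.Kern ζ K l) {w : ℂ}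
    (hw : w ∈ Ω) (hne : w ≠ ζ) : ‖K w‖ < ‖l w + (w - ζ)⁻¹‖ := by
  have hF : DifferentiableOn ℂ (fun t => (t - ζ) * K t) Ω :=
    (differentiableOn_id.sub_const ζ).mul h.dK
  have hG : DifferentiableOn ℂ (fun t => (t - ζ) * l t + 1) Ω :=
    ((differentiableOn_id.sub_const ζ).mul h.dl).add_const 1
  have h1 := norm_lt_of_ne C.conn hF.continuousOn hG.continuousOn (fun b hb he => by
    obtain ⟨r, hr, hr0⟩ := exists_unit he
    set φ : ℂ → ℂ := fun t => r * ((t - ζ) * l t + 1) + conj r * ((t - ζ) * K t) with hφ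
    have hφd : DifferentiableOn ℂ φ Ω := (hG.const_mul r).add (hF.const_mul _)
    have hfac : ∀ t, (t - b) * dslope φ b t = φ t := fun t => by
      have := sub_smul_dslope φ b t
      rw [smul_eq_mul] at this
      rw [this]
      simp only [hφ]
      linear_combination -hr0
    have hz := key (C := C) hc h.mem h.mem hb h.mem (H := fun t => r * l t + conj r * K t)
      (h := dslope φ b) (r := r) (s := 0) ((h.dl.const_mul r).add (h.dK.const_mul _))
      ((continuousOn_const.mul h.cl).add (continuousOn_const.mul h.cK))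
      (by simpa using (h.tl.const_mul r).add (h.tK.const_mul (conj r)))
      (fun k u hu => by
        have b1 := h.bd k u hu
        have b2 := (swap_bd k hu b1).1
        simp only [map_add, map_mul, conj_conj, map_zero] at b2 ⊢
        linear_combination r * b1 + conj r * b2)
      ((differentiableOn_dslope (C.isOpen.mem_nhds hb)).2 hφd)
      (fun t => by
        have := hfac t
        simp only [hφ] at this ⊢
        linear_combination (t - ζ) * this) ζ h.mem
    have := hfac ζ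
    rw [hz] at this
    simp [hφ, hr.symm] at this) h.mem (by simp) w hw
  have h2 := sub_ne_zero.2 hne
  have h3 : (w - ζ) * l w + 1 = (w - ζ) * (l w + (w - ζ)⁻¹) := by field_simp
  rw [h3, norm_mul, norm_mul] at h1
  exact lt_of_mul_lt_mul_left h1 (norm_nonneg _)

lemma Kern.re_le {c : ℂ} (hc : c ∉ Ω) {z ζ w : ℂ} {K l K' l' : ℂ → ℂ} (h : C.Kern z K l)
    (h' : C.Kern ζ K' l') (hw : w ∈ Ω) (hwz : w ≠ z) (hwζ : w ≠ ζ) (hzζ : z ≠ ζ) {α β : ℂ}
    (eF : K w + α * (l' w + (w - ζ)⁻¹) + β * K' w = 0)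
    (eG : (l w + (w - z)⁻¹) + conj β * (l' w + (w - ζ)⁻¹) + conj α * K' w = 0) :
    (α * (l' z + (z - ζ)⁻¹) + β * K' z).re ≤ 0 := by
  have n1 := sub_ne_zero.2 hwz
  have n2 := sub_ne_zero.2 hwζ
  have n3 := sub_ne_zero.2 hzζ
  have n4 := sub_ne_zero.2 hwz.symm
  set E : ℂ → ℂ := fun t => (t - ζ) * (K t + α * l' t + β * K' t) + α with hE
  set G : ℂ → ℂ := fun t => (t - z) * (t - ζ) * (l t + conj β * l' t + conj α * K' t) +
    (t - ζ) + conj β * (t - z) with hG
  have d1 : DifferentiableOn ℂ (fun t => K t + α * l' t + β * K' t) Ω :=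
    (h.dK.add (h'.dl.const_mul α)).add (h'.dK.const_mul β)
  have d2 : DifferentiableOn ℂ (fun t => l t + conj β * l' t + conj α * K' t) Ω :=
    (h.dl.add (h'.dl.const_mul _)).add (h'.dK.const_mul _)
  have hEd : DifferentiableOn ℂ E Ω := ((differentiableOn_id.sub_const ζ).mul d1).add_const α
  have hGd : DifferentiableOn ℂ G Ω :=
    ((((differentiableOn_id.sub_const z).mul (differentiableOn_id.sub_const ζ)).mul d2).add
      (differentiableOn_id.sub_const ζ)).add ((differentiableOn_id.sub_const z).const_mul _)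
  have hEw : E w = 0 := by
    simp only [hE]
    have : (w - ζ) * (w - ζ)⁻¹ = 1 := mul_inv_cancel₀ n2
    linear_combination (w - ζ) * eF - α * this
  have hGw : G w = 0 := by
    simp only [hG]
    have e1 : (w - ζ) * (w - ζ)⁻¹ = 1 := mul_inv_cancel₀ n2
    have e2 : (w - z) * (w - z)⁻¹ = 1 := mul_inv_cancel₀ n1
    linear_combination (w - z) * (w - ζ) * eG - (w - ζ) * e2 - conj β * (w - z) * e1
  have hwn := C.isOpen.mem_nhds hw
  set E₁ := dslope E w with hE₁
  set G₁ := dslope G w with hG₁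
  have hE₁d : DifferentiableOn ℂ E₁ Ω := (differentiableOn_dslope hwn).2 hEd
  have hG₁d : DifferentiableOn ℂ G₁ Ω := (differentiableOn_dslope hwn).2 hGd
  have fE : ∀ t, (t - w) * E₁ t = E t := fun t => by
    have := sub_smul_dslope E w t
    rwa [smul_eq_mul, hEw, sub_zero] at this
  have fG : ∀ t, (t - w) * G₁ t = G t := fun t => by
    have := sub_smul_dslope G w t
    rwa [smul_eq_mul, hGw, sub_zero] at this
  have hF₁d : DifferentiableOn ℂ (fun t => (t - z) * E₁ t) Ω :=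
    (differentiableOn_id.sub_const z).mul hE₁d
  have hGz : (z - w) * G₁ z = z - ζ := by rw [fG]; simp [hG]
  have hGz0 : G₁ z ≠ 0 := fun e => n3 (by rw [← hGz, e, mul_zero])
  have h1 := norm_lt_of_ne C.conn hF₁d.continuousOn hG₁d.continuousOn (fun b hb he => by
    obtain ⟨r, hr, hr0⟩ := exists_unit he
    set φ : ℂ → ℂ := fun t => r * G₁ t + conj r * ((t - z) * E₁ t) with hφ
    have hφd : DifferentiableOn ℂ φ Ω := (hG₁d.const_mul r).add (hF₁d.const_mul _)
    have hfac : ∀ t, (t - b) * dslope φ b t = φ t := fun t => by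
      have := sub_smul_dslope φ b t
      rw [smul_eq_mul] at this
      rw [this]
      simp only [hφ]
      linear_combination -hr0
    have hz := key (C := C) hc h.mem h'.mem hw hb
      (H := fun t => r * (l t + conj β * l' t + conj α * K' t) + conj r * (K t + α * l' t + β * K' t))
      (h := dslope φ b) (r := r) (s := r * conj β + conj r * α)
      ((d2.const_mul r).add (d1.const_mul _))
      ((continuousOn_const.mul ((h.cl.add (continuousOn_const.mul h'.cl)).add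
        (continuousOn_const.mul h'.cK))).add (continuousOn_const.mul
        ((h.cK.add (continuousOn_const.mul h'.cl)).add (continuousOn_const.mul h'.cK))))
      (by
        have := (((h.tl.add (h'.tl.const_mul (conj β))).add
          (h'.tK.const_mul (conj α))).const_mul r).add
          (((h.tK.add (h'.tl.const_mul α)).add (h'.tK.const_mul β)).const_mul (conj r))
        simpa using this)
      (fun k u hu => by
        have b1 := h.bd k u hu
        have b2 := (swap_bd k hu b1).1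
        have b3 := h'.bd k u hu
        have b4 := (swap_bd k hu b3).1
        simp only [map_add, map_mul, conj_conj] at b2 b4 ⊢
        linear_combination r * b1 + conj r * b2 + (r * conj β + conj r * α) * b3 +
          (r * conj α + conj r * β) * b4)
      ((differentiableOn_dslope (C.isOpen.mem_nhds hb)).2 hφd)
      (fun t => by
        have e1 := hfac t
        have e2 := fE t
        have e3 := fG t
        simp only [hφ, hE, hG] at e1 e2 e3 ⊢
        linear_combination (t - w) * e1 + r * e3 + conj r * (t - z) * e2) z h.mem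
    have := hfac z
    rw [hz] at this
    simp [hφ, hr, hGz0] at this) h.mem (by simpa using hGz0)
  have hG0 : ∀ t ∈ Ω, G₁ t ≠ 0 := fun t ht => norm_pos_iff.1 ((norm_nonneg _).trans_lt (h1 t ht))
  have h2 := h.schwarz (ψ := fun t => E₁ t / G₁ t) (hE₁d.div hG₁d hG0) fun t ht => by
    rw [← mul_div_assoc, norm_div, div_le_one (norm_pos_iff.2 (hG0 t ht))]
    exact (h1 t ht).le
  have h3 : E₁ z / G₁ z = K z + (α * (l' z + (z - ζ)⁻¹) + β * K' z) := by
    have e1 := fE z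
    simp only [hE] at e1
    rw [div_eq_iff hGz0]
    refine mul_left_cancel₀ n4 ?_
    have e2 : (z - ζ) * (z - ζ)⁻¹ = 1 := mul_inv_cancel₀ n3
    linear_combination e1 - (K z + (α * (l' z + (z - ζ)⁻¹) + β * K' z)) * hGz - α * e2
  simp only [h3] at h2
  have h4 := (re_le_norm _).trans h2
  rw [add_re] at h4
  linarith

end Collar

lemma algebra_step {lwz lwζ lzζ kwz kwζ kzζ : ℂ} (hlt : ‖kwζ‖ < ‖lwζ‖)
    (H : ∀ α β : ℂ, kwz + α * lwζ + β * kwζ = 0 → lwz + conj β * lwζ + conj α * kwζ = 0 →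
      (α * lzζ + β * kzζ).re ≤ 0) :
    (2 : ℝ) * ((lwz * conj kwζ - conj kwz * lwζ) * conj lzζ -
      (lwz * conj lwζ - conj kwz * kwζ) * conj kzζ).re ≤ 0 := by
  set Δ : ℝ := ‖lwζ‖ ^ 2 - ‖kwζ‖ ^ 2 with hΔ
  have hΔ0 : 0 < Δ := by nlinarith [norm_nonneg kwζ]
  have hΔc : (Δ : ℂ) = lwζ * conj lwζ - kwζ * conj kwζ := by
    rw [mul_conj', mul_conj', hΔ]
    push_cast
    ring
  have hne : (Δ : ℂ) ≠ 0 := by exact_mod_cast hΔ0.ne'
  have h1 := H (-(conj lwζ * kwz - kwζ * conj lwz) / Δ) (-(lwζ * conj lwz - conj kwζ * kwz) / Δ)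
    (by field_simp; rw [hΔc]; ring)
    (by
      simp only [map_div₀, map_neg, map_sub, map_mul, conj_conj, conj_ofReal]
      field_simp
      rw [hΔc]
      ring)
  have h2 : (lwz * conj kwζ - conj kwz * lwζ) * conj lzζ -
      (lwz * conj lwζ - conj kwz * kwζ) * conj kzζ =
      Δ * conj (-(conj lwζ * kwz - kwζ * conj lwz) / Δ * lzζ +
        -(lwζ * conj lwz - conj kwζ * kwz) / Δ * kzζ) := by
    simp only [map_add, map_div₀, map_neg, map_sub, map_mul, conj_conj, conj_ofReal]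
    field_simp
    ring
  rw [h2, re_ofReal_mul, conj_re]
  nlinarith

theorem main (Ω : Set ℂ) (n : ℕ) (γ : Fin n → ℝ → ℂ) (K L : ℂ → ℂ → ℂ)
    (hO : IsOpen Ω) (hC : IsConnected Ω) (hB : Bornology.IsBounded Ωᶜ)
    (han : ∀ k : Fin n, AnalyticOnNhd ℝ (γ k) Set.univ)
    (hper : ∀ k : Fin n, Function.Periodic (γ k) (1 : ℝ))
    (hinj : ∀ k : Fin n, Set.InjOn (γ k) (Set.Ico (0:ℝ) 1))
    (hd : ∀ k : Fin n, ∀ t : ℝ, deriv (γ k) t ≠ 0)
    (hdisj : ∀ k j : Fin n, k ≠ j → Disjoint (Set.range (γ k)) (Set.range (γ j)))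
    (hfr : frontier Ω = ⋃ k : Fin n, Set.range (γ k))
    (hleft : ∀ k : Fin n, ∀ t : ℝ, ∀ᶠ ε : ℝ in 𝓝[>] (0:ℝ),
        γ k t + ((ε : ℝ) : ℂ) * Complex.I * deriv (γ k) t ∈ Ω)
    (hKL : ∀ ζ : ℂ, ζ ∈ Ω →
      DifferentiableOn ℂ (fun z : ℂ => K z ζ) Ω ∧
      ContinuousOn (fun z : ℂ => K z ζ) (closure Ω) ∧
      Tendsto (fun z : ℂ => K z ζ) (cocompact ℂ) (𝓝 (0:ℂ)) ∧
      DifferentiableOn ℂ (fun z : ℂ => L z ζ - (z - ζ)⁻¹) Ω ∧
      ContinuousOn (fun z : ℂ => L z ζ - (z - ζ)⁻¹) (closure Ω) ∧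
      Tendsto (fun z : ℂ => L z ζ) (cocompact ℂ) (𝓝 (0:ℂ)) ∧
      ∀ k : Fin n, ∀ t : ℝ, (Complex.I)⁻¹ * L (γ k t) ζ * deriv (γ k) t
          = starRingEnd ℂ (K (γ k t) ζ) * (((‖deriv (γ k) t‖ : ℝ)) : ℂ))
    (w : ℂ) (hw : w ∈ Ω) (z : ℂ) (hz : z ∈ Ω) (ζ : ℂ) (hζ : ζ ∈ Ω)
    (hwz : w ≠ z) (hwζ : w ≠ ζ) (hzζ : z ≠ ζ) :
      (2:ℝ) * (((L w z * starRingEnd ℂ (K w ζ) - starRingEnd ℂ (K w z) * L w ζ)
              * starRingEnd ℂ (L z ζ)
            - (L w z * starRingEnd ℂ (L w ζ) - starRingEnd ℂ (K w z) * K w ζ)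
              * starRingEnd ℂ (K z ζ)) : ℂ).re ≤ 0 := by
  by_cases huniv : Ω = univ
  · have h0 : ∀ a x, K x a = 0 := fun a x => by
      obtain ⟨h1, -, h2, -⟩ := hKL a (huniv ▸ mem_univ a)
      rw [huniv, differentiableOn_univ] at h1
      exact h1.apply_eq_of_tendsto_cocompact x h2
    simp [h0]
  obtain ⟨c, hc⟩ := (ne_univ_iff_exists_notMem Ω).1 huniv
  obtain ⟨C, hCγ⟩ := exists_collar Ω n γ hO hC hB han hper hinj hd hdisj hfr hleft
  have hK : ∀ a ∈ Ω, C.Kern a (fun t => K t a) (fun t => L t a - (t - a)⁻¹) := by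
    intro a ha
    obtain ⟨h1, h2, h3, h4, h5, h6, h7⟩ := hKL a ha
    refine ⟨ha, h1, h2, h3, h4, h5, by simpa using h6.sub (tendsto_inv_sub a), fun k u hu => ?_⟩
    obtain ⟨t, rfl⟩ := exists_ee hu
    have e := h7 k t
    rw [(hCγ k t).2, ← (hCγ k t).1] at e
    have e1 : ‖deriv (C.Ψ k) (ee t) * (2 * π * I * ee t)‖ = ‖deriv (C.Ψ k) (ee t)‖ * (2 * π) := by
      simp [norm_ee, abs_of_pos Real.pi_pos]
    rw [e1] at e
    push_cast at e
    have hπ : (2 * π : ℂ) ≠ 0 := by simp [Real.pi_ne_zero]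
    refine mul_right_cancel₀ hπ ?_
    have e2 : I⁻¹ * I = 1 := inv_mul_cancel₀ I_ne_zero
    linear_combination e - L (C.Ψ k (ee t)) a * deriv (C.Ψ k) (ee t) * (2 * π * ee t) * e2
  refine algebra_step ?_ fun α β e1 e2 => ?_
  · simpa using (hK ζ hζ).norm_lt hc hw hwζ
  · have := (hK z hz).re_le hc (hK ζ hζ) hw hwz hwζ hzζ (α := α) (β := β)
      (by simpa using e1) (by simpa using e2)
    simpa only [sub_add_cancel] using this

end Pool.Agent.MP_476a06_an
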