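import Mathlib

/-! Winding numbers of analytic functions along circles centred at the origin. -/

set_option autoImplicit false

open Complex Metric Set Filter Topology
open scoped Real

namespace Pool.Agent.MP_476a06_an

/-- The winding number (as a complex number) of `h` along the circle of radius `ρ`. -/
noncomputable def wn (h : ℂ → ℂ) (ρ : ℝ) : ℂ :=
  (2 * π * I)⁻¹ * ∮ u in C(0, ρ), deriv h u / h u

/-- `h` is analytic and zero free on the circle of radius `ρ`. -/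
def Good (h : ℂ → ℂ) (ρ : ℝ) : Prop :=
  ∀ u ∈ sphere (0 : ℂ) ρ, AnalyticAt ℂ h u ∧ h u ≠ 0

lemma two_pi_I_ne : (2 * π * I : ℂ) ≠ 0 := Complex.two_pi_I_ne_zero

lemma int_const {X : Type*} [TopologicalSpace X] {s : Set X} (hs : IsPreconnected s) {f : X → ℂ}
    (hf : ContinuousOn f s) (h : ∀ x ∈ s, ∃ m : ℤ, f x = m) {x y : X} (hx : x ∈ s) (hy : y ∈ s) :
    f x = f y := by
  have hd : IsDiscrete (range ((↑) : ℤ → ℂ)) := by
    have : Topology.IsInducing ((↑) : ℤ → ℂ) := by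
      have h1 : Topology.IsInducing ((↑) : ℤ → ℝ) := Int.isClosedEmbedding_coe_real.isInducing
      have h2 : Topology.IsInducing ((↑) : ℝ → ℂ) := Complex.isometry_ofReal.isUniformInducing.isInducing
      have h3 := h2.comp h1
      convert h3 using 1
      ext m
      simp
    exact this.isDiscrete_range
  refine hs.constant_of_mapsTo hd hf ?_ hx hy
  intro z hz
  obtain ⟨m, hm⟩ := h z hz
  exact ⟨m, hm.symm⟩

lemma exp_integral_logDeriv {p p' : ℝ → ℂ} (hp : ∀ t, HasDerivAt p (p' t) t)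
    (hc : Continuous p') (h0 : ∀ t, p t ≠ 0) (a b : ℝ) :
    exp (∫ t in a..b, p' t / p t) * p a = p b := by
  have hpc : Continuous p := continuous_iff_continuousAt.2 fun t => (hp t).continuousAt
  have hq : Continuous fun t => p' t / p t := hc.div hpc h0
  have hM : ∀ t, HasDerivAt (fun s => ∫ x in a..s, p' x / p x) (p' t / p t) t := fun t =>
    (hq.integral_hasStrictDerivAt a t).hasDerivAt
  have hφ : ∀ t, HasDerivAt (fun s => exp (-(∫ x in a..s, p' x / p x)) * p s) 0 t := by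
    intro t
    have h1 := ((hM t).fun_neg.cexp).fun_mul (hp t)
    refine h1.congr_deriv ?_
    have := h0 t
    field_simp
    ring
  have hconst := is_const_of_deriv_eq_zero (fun t => (hφ t).differentiableAt)
    (fun t => (hφ t).deriv) b a
  simp only [intervalIntegral.integral_same, neg_zero, exp_zero, one_mul] at hconst
  rw [← hconst, ← mul_assoc, ← exp_add]
  simp

lemma integral_logDeriv_eq_of_lift {p p' l : ℝ → ℂ} (hp : ∀ t, HasDerivAt p (p' t) t)
    (hc : Continuous p') (hl : Continuous l) (he : ∀ t, exp (l t) = p t) (a b : ℝ) :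
    ∫ t in a..b, p' t / p t = l b - l a := by
  have h0 : ∀ t, p t ≠ 0 := fun t => he t ▸ exp_ne_zero _
  have hpc : Continuous p := continuous_iff_continuousAt.2 fun t => (hp t).continuousAt
  have hq : Continuous fun t => p' t / p t := hc.div hpc h0
  have hM : Continuous fun s => ∫ x in a..s, p' x / p x :=
    continuous_iff_continuousAt.2 fun t => (hq.integral_hasStrictDerivAt a t).hasDerivAt.continuousAt
  have key : ∀ s, ∃ m : ℤ,
      ((∫ x in a..s, p' x / p x) + l a - l s) / (2 * π * I) = m := by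
    intro s
    have h1 := exp_integral_logDeriv hp hc h0 a s
    rw [← he a, ← he s, ← exp_add, exp_eq_exp_iff_exists_int] at h1
    obtain ⟨m, hm⟩ := h1
    refine ⟨m, ?_⟩
    rw [hm, div_eq_iff two_pi_I_ne]
    ring
  have h2 := int_const (s := univ) isPreconnected_univ
    (f := fun s => ((∫ x in a..s, p' x / p x) + l a - l s) / (2 * π * I))
    (by fun_prop) (fun s _ => key s) (mem_univ b) (mem_univ a)
  simp only [intervalIntegral.integral_same, zero_add, sub_self, zero_div] at h2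
  rw [div_eq_zero_iff] at h2
  rcases h2 with h2 | h2
  · linear_combination h2
  · exact absurd h2 two_pi_I_ne

lemma Good.continuousOn {h : ℂ → ℂ} {ρ : ℝ} (hg : Good h ρ) :
    ContinuousOn (fun u => deriv h u / h u) (sphere 0 ρ) := fun u hu =>
  ((hg u hu).1.deriv.continuousAt.div (hg u hu).1.continuousAt (hg u hu).2).continuousWithinAt

lemma Good.circleIntegrable {h : ℂ → ℂ} {ρ : ℝ} (hρ : 0 ≤ ρ) (hg : Good h ρ) :
    CircleIntegrable (fun u => deriv h u / h u) 0 ρ := hg.continuousOn.circleIntegrable hρ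

lemma Good.mul {h g : ℂ → ℂ} {ρ : ℝ} (hh : Good h ρ) (hg : Good g ρ) :
    Good (fun u => h u * g u) ρ := fun u hu =>
  ⟨(hh u hu).1.mul (hg u hu).1, mul_ne_zero (hh u hu).2 (hg u hu).2⟩

lemma circle_hasDerivAt {h : ℂ → ℂ} {ρ : ℝ} (hρ : 0 ≤ ρ) (hg : ∀ u ∈ sphere (0 : ℂ) ρ, AnalyticAt ℂ h u)
    (t : ℝ) : HasDerivAt (fun t => h (circleMap 0 ρ t))
      (deriv h (circleMap 0 ρ t) * (circleMap 0 ρ t * I)) t :=
  (hg _ (circleMap_mem_sphere 0 hρ t)).differentiableAt.hasDerivAt.comp_of_eq t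
    (hasDerivAt_circleMap 0 ρ t) rfl

lemma circle_continuous {h : ℂ → ℂ} {ρ : ℝ} (hρ : 0 ≤ ρ)
    (hg : ∀ u ∈ sphere (0 : ℂ) ρ, ContinuousAt h u) :
    Continuous (fun t => h (circleMap 0 ρ t)) :=
  continuous_iff_continuousAt.2 fun t =>
    ContinuousAt.comp (f := circleMap 0 ρ) (hg _ (circleMap_mem_sphere 0 hρ t))
      (continuous_circleMap 0 ρ).continuousAt

lemma wn_eq_interval (h : ℂ → ℂ) (ρ : ℝ) : wn h ρ = (2 * π * I)⁻¹ *
    ∫ t in (0 : ℝ)..2 * π, (deriv h (circleMap 0 ρ t) * (circleMap 0 ρ t * I)) / h (circleMap 0 ρ t) := by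
  unfold wn circleIntegral
  congr 1
  refine intervalIntegral.integral_congr fun t _ => ?_
  simp only [deriv_circleMap, smul_eq_mul]
  ring

lemma Good.exists_int {h : ℂ → ℂ} {ρ : ℝ} (hρ : 0 ≤ ρ) (hg : Good h ρ) : ∃ m : ℤ, wn h ρ = m := by
  have h1 := exp_integral_logDeriv (circle_hasDerivAt hρ fun u hu => (hg u hu).1)
    ((circle_continuous hρ fun u hu => (hg u hu).1.deriv.continuousAt).mul (by fun_prop))
    (fun t => (hg _ (circleMap_mem_sphere 0 hρ t)).2) 0 (2 * π)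
  have hper : circleMap 0 ρ (2 * π) = circleMap 0 ρ 0 := by
    simpa using periodic_circleMap 0 ρ 0
  rw [hper] at h1
  have h2 := mul_right_cancel₀ (hg _ (circleMap_mem_sphere 0 hρ 0)).2 (h1.trans (one_mul _).symm)
  rw [exp_eq_one_iff] at h2
  obtain ⟨m, hm⟩ := h2
  refine ⟨m, ?_⟩
  rw [wn_eq_interval, hm]
  field_simp

lemma wn_congr {h g : ℂ → ℂ} {ρ : ℝ} (hρ : 0 ≤ ρ) (he : ∀ u ∈ sphere (0 : ℂ) ρ, h =ᶠ[𝓝 u] g) :
    wn h ρ = wn g ρ := by
  unfold wn
  congr 1
  refine circleIntegral.integral_congr hρ fun u hu => ?_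
  simp only [(he u hu).deriv_eq, (he u hu).eq_of_nhds]

lemma Good.congr {h g : ℂ → ℂ} {ρ : ℝ} (hh : Good h ρ) (he : ∀ u ∈ sphere (0 : ℂ) ρ, h =ᶠ[𝓝 u] g) :
    Good g ρ := fun u hu =>
  ⟨(hh u hu).1.congr (he u hu), (he u hu).eq_of_nhds ▸ (hh u hu).2⟩

lemma wn_mul {h g : ℂ → ℂ} {ρ : ℝ} (hρ : 0 ≤ ρ) (hh : Good h ρ) (hg : Good g ρ) :
    wn (fun u => h u * g u) ρ = wn h ρ + wn g ρ := by
  unfold wn
  rw [← mul_add, ← circleIntegral.integral_add (hh.circleIntegrable hρ) (hg.circleIntegrable hρ)]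
  congr 1
  refine circleIntegral.integral_congr hρ fun u hu => ?_
  have h1 := (hh u hu).2
  have h2 := (hg u hu).2
  simp only
  rw [deriv_fun_mul (hh u hu).1.differentiableAt (hg u hu).1.differentiableAt]
  field_simp

lemma wn_slit {h : ℂ → ℂ} {ρ : ℝ} (hρ : 0 ≤ ρ)
    (hh : ∀ u ∈ sphere (0 : ℂ) ρ, AnalyticAt ℂ h u ∧ h u ∈ slitPlane) : wn h ρ = 0 := by
  unfold wn
  rw [circleIntegral.integral_eq_zero_of_hasDerivWithinAt (f := fun u => log (h u)) hρ, mul_zero]
  intro u hu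
  exact ((hh u hu).1.differentiableAt.hasDerivAt.clog (hh u hu).2).hasDerivWithinAt

lemma wn_const (c : ℂ) (ρ : ℝ) : wn (fun _ => c) ρ = 0 := by
  simp [wn, circleIntegral]

lemma wn_eq_of_close {h g : ℂ → ℂ} {ρ : ℝ} (hρ : 0 ≤ ρ) (hh : Good h ρ)
    (hg : ∀ u ∈ sphere (0 : ℂ) ρ, AnalyticAt ℂ g u ∧ ‖g u - h u‖ < ‖h u‖) :
    Good g ρ ∧ wn g ρ = wn h ρ := by
  have hq : ∀ u ∈ sphere (0 : ℂ) ρ, AnalyticAt ℂ (fun u => g u / h u) u ∧ g u / h u ∈ slitPlane := by
    intro u hu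
    refine ⟨(hg u hu).1.div (hh u hu).1 (hh u hu).2, ?_⟩
    have h0 := (hh u hu).2
    have : g u / h u = 1 + (g u - h u) / h u := by field_simp; ring
    rw [this]
    apply mem_slitPlane_of_norm_lt_one
    rw [norm_div, div_lt_one (norm_pos_iff.2 h0)]
    exact (hg u hu).2
  have hq' : Good (fun u => g u / h u) ρ := fun u hu => ⟨(hq u hu).1, slitPlane_ne_zero (hq u hu).2⟩
  have he : ∀ u ∈ sphere (0 : ℂ) ρ, (fun u => h u * (g u / h u)) =ᶠ[𝓝 u] g := by
    intro u hu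
    filter_upwards [(hh u hu).1.continuousAt.eventually_ne (hh u hu).2] with v hv
    field_simp
  refine ⟨(hh.mul hq').congr he, ?_⟩
  rw [← wn_congr hρ he, wn_mul hρ hh hq', wn_slit hρ hq, add_zero]

lemma good_sub {b : ℂ} {ρ : ℝ} (hb : ‖b‖ ≠ ρ) : Good (fun u => u - b) ρ := by
  intro u hu
  refine ⟨by fun_prop, fun h => hb ?_⟩
  rw [← sub_eq_zero.1 h]
  simpa using hu

lemma wn_sub_in {b : ℂ} {ρ : ℝ} (hb : ‖b‖ < ρ) : wn (fun u => u - b) ρ = 1 := by
  unfold wn
  have := circleIntegral.integral_sub_inv_of_mem_ball (c := 0) (w := b) (R := ρ) (by simpa using hb)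
  simp only [deriv_sub_const, deriv_id'', one_div]
  rw [this]
  field_simp

lemma wn_sub_out {b : ℂ} {ρ : ℝ} (hρ : 0 ≤ ρ) (hb : ρ < ‖b‖) : wn (fun u => u - b) ρ = 0 := by
  have hb0 : b ≠ 0 := norm_pos_iff.1 (hρ.trans_lt hb)
  have h1 : Good (fun _ => -b) ρ := fun u _ => ⟨by fun_prop, neg_ne_zero.2 hb0⟩
  rw [(wn_eq_of_close hρ h1 (g := fun u => u - b) ?_).2, wn_const]
  intro u hu
  refine ⟨by fun_prop, ?_⟩
  have : ‖u‖ = ρ := by simpa using hu
  simpa [this] using hb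

lemma wn_annulus {h : ℂ → ℂ} {r R : ℝ} (hr : 0 < r) (hle : r ≤ R)
    (hh : ∀ u : ℂ, r ≤ ‖u‖ → ‖u‖ ≤ R → AnalyticAt ℂ h u ∧ h u ≠ 0) : wn h R = wn h r := by
  unfold wn
  congr 1
  have hd : ∀ u : ℂ, r ≤ ‖u‖ → ‖u‖ ≤ R → AnalyticAt ℂ (fun u => deriv h u / h u) u :=
    fun u h1 h2 => (hh u h1 h2).1.deriv.div (hh u h1 h2).1 (hh u h1 h2).2
  refine circleIntegral_eq_of_differentiable_on_annulus_off_countable hr hle countable_empty ?_ ?_
  · intro u hu
    simp only [Set.mem_sdiff, mem_closedBall, dist_zero_right, mem_ball, not_lt] at hu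
    exact (hd u hu.2 hu.1).continuousAt.continuousWithinAt
  · intro u hu
    simp only [Set.mem_sdiff, mem_closedBall, dist_zero_right, mem_ball, not_le] at hu
    exact (hd u hu.1.2.le hu.1.1.le).differentiableAt

lemma differentiableOn_iterate_dslope {U : Set ℂ} {b : ℂ} (hb : U ∈ 𝓝 b) (m : ℕ) :
    ∀ {f : ℂ → ℂ}, DifferentiableOn ℂ f U →
      DifferentiableOn ℂ ((Function.swap dslope b)^[m] f) U := by
  induction m with
  | zero => intro f hf; exact hf
  | succ m ih =>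
    intro f hf
    rw [Function.iterate_succ_apply]
    exact ih ((differentiableOn_dslope hb).2 hf)

lemma finite_zeros {U K : Set ℂ} (hU : IsOpen U) (hc : IsPreconnected U) (hK : IsCompact K)
    (hKU : K ⊆ U) {f : ℂ → ℂ} (hf : DifferentiableOn ℂ f U) (hne : ∃ x ∈ U, f x ≠ 0) :
    {x ∈ K | f x = 0}.Finite := by
  by_contra hinf
  have hinf' : {x ∈ K | f x = 0}.Infinite := hinf
  obtain ⟨z, hzK, hz⟩ := hinf'.exists_accPt_of_subset_isCompact hK (sep_subset _ _)
  have han := hf.analyticOnNhd hU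
  have hfr : ∃ᶠ w in 𝓝[≠] z, f w = 0 := by
    rw [accPt_iff_frequently_nhdsNE] at hz
    exact hz.mono fun w hw => hw.2
  obtain ⟨x, hx, hx0⟩ := hne
  exact hx0 (han.eqOn_zero_of_preconnected_of_frequently_eq_zero hc (hKU hzK) hfr hx)

lemma exists_factor {U K : Set ℂ} (hU : IsOpen U) (hc : IsPreconnected U) (hK : IsCompact K)
    (hKU : K ⊆ U) {f : ℂ → ℂ} (hf : DifferentiableOn ℂ f U) (hne : ∃ x ∈ U, f x ≠ 0) :
    ∃ (l : List ℂ) (g : ℂ → ℂ), (∀ b ∈ l, b ∈ K) ∧ DifferentiableOn ℂ g U ∧ (∀ x ∈ K, g x ≠ 0) ∧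
      ∀ x, f x = (l.map fun b => x - b).prod * g x := by
  classical
  have main : ∀ S : Finset ℂ, ∀ f : ℂ → ℂ, DifferentiableOn ℂ f U → (∃ x ∈ U, f x ≠ 0) →
      (∀ x ∈ K, f x = 0 → x ∈ S) →
      ∃ (l : List ℂ) (g : ℂ → ℂ), (∀ b ∈ l, b ∈ K) ∧ DifferentiableOn ℂ g U ∧ (∀ x ∈ K, g x ≠ 0) ∧
        ∀ x, f x = (l.map fun b => x - b).prod * g x := by
    intro S
    induction S using Finset.induction_on with
    | empty =>
      intro f hf _ hz
      exact ⟨[], f, by simp, hf, fun x hx h0 => by simpa using hz x hx h0, by simp⟩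
    | insert b S hbS ih =>
      intro f hf hne hz
      by_cases hbK : b ∈ K
      · have hbU := hU.mem_nhds (hKU hbK)
        obtain ⟨p, hp⟩ := hf.analyticAt hbU
        have hp0 : p ≠ 0 := by
          intro h0
          obtain ⟨x, hx, hx0⟩ := hne
          have := hp.locally_zero_iff.2 h0
          exact hx0 ((hf.analyticOnNhd hU).eqOn_zero_of_preconnected_of_eventuallyEq_zero hc
            (hKU hbK) this hx)
        have hfac := hp.eq_pow_order_mul_iterate_dslope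
        have hg0 := hp.iterate_dslope_fslope_ne_zero hp0
        have hgd := differentiableOn_iterate_dslope hbU p.order hf
        obtain ⟨l, g, hl, hg, hgK, hfg⟩ := ih _ hgd ⟨b, hKU hbK, hg0⟩ (by
          intro x hx h0
          have h1 : f x = 0 := by rw [hfac x, h0, smul_zero]
          rcases Finset.mem_insert.1 (hz x hx h1) with h | h
          · exact absurd (h ▸ h0) hg0
          · exact h)
        refine ⟨List.replicate p.order b ++ l, g, ?_, hg, hgK, fun x => ?_⟩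
        · intro c hc
          rcases List.mem_append.1 hc with h | h
          · exact (List.eq_of_mem_replicate h) ▸ hbK
          · exact hl c h
        · rw [hfac x, hfg x]
          simp [mul_assoc]
      · refine ih f hf hne fun x hx h0 => ?_
        rcases Finset.mem_insert.1 (hz x hx h0) with h | h
        · exact absurd (h ▸ hx) hbK
        · exact h
  exact main (finite_zeros hU hc hK hKU hf hne).toFinset f hf hne fun x hx h0 => by simp [hx, h0]

lemma wn_list_prod {ι : Type*} (l : List ι) {F : ι → ℂ → ℂ} {ρ : ℝ} (hρ : 0 ≤ ρ)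
    (hF : ∀ i ∈ l, Good (F i) ρ) :
    Good (fun u => (l.map fun i => F i u).prod) ρ ∧
      wn (fun u => (l.map fun i => F i u).prod) ρ = (l.map fun i => wn (F i) ρ).sum := by
  induction l with
  | nil => exact ⟨fun u _ => ⟨by simpa using analyticAt_const, by simp⟩, by simpa using wn_const 1 ρ⟩
  | cons a l ih =>
    obtain ⟨h1, h2⟩ := ih fun i hi => hF i (List.mem_cons_of_mem _ hi)
    have ha := hF a List.mem_cons_self
    simp only [List.map_cons, List.prod_cons, List.sum_cons]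
    exact ⟨ha.mul h1, by rw [wn_mul hρ ha h1, h2]⟩

lemma isPreconnected_annulus (a b : ℝ) (ha : 0 ≤ a) :
    IsPreconnected {u : ℂ | a < ‖u‖ ∧ ‖u‖ < b} := by
  have : {u : ℂ | a < ‖u‖ ∧ ‖u‖ < b} =
      (fun p : ℝ × ℝ => circleMap 0 p.1 p.2) '' (Ioo a b ×ˢ univ) := by
    ext u
    simp only [mem_ofPred_eq, mem_image, mem_prod, mem_Ioo, mem_univ, and_true, Prod.exists]
    constructor
    · rintro ⟨h1, h2⟩
      exact ⟨‖u‖, arg u, ⟨h1, h2⟩, by simp [circleMap]⟩
    · rintro ⟨r, θ, ⟨h1, h2⟩, rfl⟩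
      rw [norm_circleMap_zero, abs_of_pos (ha.trans_lt h1)]
      exact ⟨h1, h2⟩
  rw [this]
  refine (isPreconnected_Ioo.prod isPreconnected_univ).image _ (Continuous.continuousOn ?_)
  unfold circleMap
  fun_prop

lemma isOpen_annulus (a b : ℝ) : IsOpen {u : ℂ | a < ‖u‖ ∧ ‖u‖ < b} :=
  (isOpen_lt continuous_const continuous_norm).inter (isOpen_lt continuous_norm continuous_const)

lemma isCompact_annulus (a b : ℝ) : IsCompact {u : ℂ | a ≤ ‖u‖ ∧ ‖u‖ ≤ b} := by
  refine (isCompact_closedBall (0 : ℂ) b).of_isClosed_subset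
    ((isClosed_le continuous_const continuous_norm).inter
      (isClosed_le continuous_norm continuous_const)) fun u hu => by simpa using hu.2

/-- Argument principle on an annulus, as an inequality. -/
lemma wn_annulus_le {h : ℂ → ℂ} {a r R b : ℝ} (ha : 0 ≤ a) (har : a < r) (hle : r ≤ R) (hRb : R < b)
    (hh : DifferentiableOn ℂ h {u : ℂ | a < ‖u‖ ∧ ‖u‖ < b})
    (h1 : ∀ u ∈ sphere (0 : ℂ) r, h u ≠ 0) (h2 : ∀ u ∈ sphere (0 : ℂ) R, h u ≠ 0) :
    (wn h r).re ≤ (wn h R).re := by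
  have hr : 0 < r := ha.trans_lt har
  have hR : 0 < R := hr.trans_le hle
  have hsub : {u : ℂ | r ≤ ‖u‖ ∧ ‖u‖ ≤ R} ⊆ {u : ℂ | a < ‖u‖ ∧ ‖u‖ < b} :=
    fun u hu => ⟨har.trans_le hu.1, hu.2.trans_lt hRb⟩
  obtain ⟨l, g, hl, hg, hgK, hfg⟩ := exists_factor (isOpen_annulus a b) (isPreconnected_annulus a b ha)
    (isCompact_annulus r R) hsub hh ⟨r, hsub (by simp [abs_of_pos hr, hle]),
      h1 _ (by simp [abs_of_pos hr])⟩
  have hga : ∀ u : ℂ, r ≤ ‖u‖ → ‖u‖ ≤ R → AnalyticAt ℂ g u ∧ g u ≠ 0 := fun u h1 h2 =>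
    ⟨hg.analyticAt ((isOpen_annulus a b).mem_nhds (hsub ⟨h1, h2⟩)), hgK u ⟨h1, h2⟩⟩
  have hz : ∀ c ∈ l, h c = 0 := by
    intro c hc
    rw [hfg c, List.prod_eq_zero, zero_mul]
    exact List.mem_map.2 ⟨c, hc, sub_self c⟩
  have hcr : ∀ c ∈ l, r < ‖c‖ := fun c hc =>
    lt_of_le_of_ne (hl c hc).1 fun he => h1 c (by simp [he]) (hz c hc)
  have hcR : ∀ c ∈ l, ‖c‖ < R := fun c hc =>
    lt_of_le_of_ne (hl c hc).2 fun he => h2 c (by simp [he]) (hz c hc)
  have hgr : Good g r := fun u hu => by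
    have : ‖u‖ = r := by simpa using hu
    exact hga u this.ge (this.le.trans hle)
  have hgR : Good g R := fun u hu => by
    have : ‖u‖ = R := by simpa using hu
    exact hga u (hle.trans this.ge) this.le
  obtain ⟨p1, e1⟩ := wn_list_prod l (F := fun c u => u - c) hr.le fun c hc => good_sub (hcr c hc).ne'
  obtain ⟨p2, e2⟩ := wn_list_prod l (F := fun c u => u - c) hR.le fun c hc => good_sub (hcR c hc).ne
  have hfun : h = fun u => (l.map fun c => u - c).prod * g u := funext hfg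
  rw [hfun, wn_mul hr.le p1 hgr, wn_mul hR.le p2 hgR, e1, e2, wn_annulus hr hle hga]
  have z1 : (l.map fun c => wn (fun u => u - c) r) = l.map fun _ => (0 : ℂ) :=
    List.map_congr_left fun c hc => wn_sub_out hr.le (hcr c hc)
  have z2 : (l.map fun c => wn (fun u => u - c) R) = l.map fun _ => (1 : ℂ) :=
    List.map_congr_left fun c hc => wn_sub_in (hcR c hc)
  rw [z1, z2]
  simp

end Pool.Agent.MP_476a06_an
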